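import Pool.Agent.R572.PD.Count

/-!
# Soundness and completeness of the log log machine
-/

namespace Agent.R572.PD.LL

open Letter St

section sound

variable {cell : ℕ → Cell} {n : ℕ} (G : Good cell n)

include G

theorem Good.len (j : ℕ) (hj : j ≤ n) : (cell j).ys.length = (cell 0).ys.length := by
  induction j with
  | zero => rfl
  | succ j ih => rw [G.y j (by omega), length_addc, ih (by omega)]

theorem Good.val0 : val (cell 0).ys = 0 := by
  have := G.f 0 (Nat.zero_le _)
  rw [G.f0] at this
  exact (allF_iff _).1 this.symm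

theorem Good.valj (j : ℕ) (hj : j ≤ n) : val (cell j).ys = j % 2 ^ (cell 0).ys.length := by
  induction j with
  | zero => rw [G.val0]; simp
  | succ j ih =>
    rw [G.y j (by omega), val_addc_true, ih (by omega), G.len j (by omega), Nat.mod_add_mod]

theorem Good.fj (j : ℕ) (hj : j ≤ n) :
    (cell j).f = true ↔ j % 2 ^ (cell 0).ys.length = 0 := by
  rw [G.f j hj, allF_iff, G.valj j hj]

theorem Good.fjf (j : ℕ) (hj : j ≤ n) :
    (cell j).f = false ↔ j % 2 ^ (cell 0).ys.length ≠ 0 := by
  rw [← not_iff_not, Bool.not_eq_false, G.fj j hj, not_not]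

theorem Good.last : (n + 1) % 2 ^ (cell 0).ys.length = 0 := by
  have h := (allT_iff _).1 G.e3
  rw [G.valj n le_rfl, G.len n le_rfl] at h
  rw [← Nat.mod_add_mod, h, Nat.mod_self]

/-- vertical rule -/
theorem Good.vert (j : ℕ) (hj : j + 2 ^ (cell 0).ys.length ≤ n) :
    (cell (j + 2 ^ (cell 0).ys.length)).b = xor (cell j).b (cSeq cell j) := by
  set K := 2 ^ (cell 0).ys.length with hKdef
  have hK : 0 < K := by positivity
  have hv := G.v j (by omega)
  rw [VW_seg] at hv
  -- the next row start
  have hdm := Nat.div_add_mod j K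
  have hml := Nat.mod_lt j hK
  set q := j / K with hq
  set m := j % K with hm
  -- R = K * q + K
  have hp := hv (K - 1 - m) m (by omega) ?_ ?_ ?_ ?_
  · rw [show j + 1 + (K - 1 - m) + m = j + K by omega] at hp
    exact hp
  · intro l hl
    rw [G.fjf _ (by omega), ← hKdef, show j + 1 + l = K * q + (m + 1 + l) by omega,
      Nat.mul_add_mod, Nat.mod_eq_of_lt (by omega)]
    omega
  · rw [G.fj _ (by omega), ← hKdef, show j + 1 + (K - 1 - m) = K * (q + 1) by
      rw [Nat.mul_succ]; omega]
    exact Nat.mul_mod_right _ _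
  · intro l h1 h2
    rw [G.fjf _ (by omega), ← hKdef,
      show j + 1 + (K - 1 - m) + l = K * (q + 1) + l by rw [Nat.mul_succ]; omega,
      Nat.mul_add_mod, Nat.mod_eq_of_lt (by omega)]
    omega
  · apply val_inj
    · rw [G.len j (by omega), G.len (j + 1 + (K - 1 - m) + m) (by omega)]
    · rw [G.valj j (by omega), G.valj (j + 1 + (K - 1 - m) + m) (by omega), ← hKdef,
        show j + 1 + (K - 1 - m) + m = j + K by omega, Nat.add_mod_right]

theorem Good.cseq (t i : ℕ) (hi : i < 2 ^ (cell 0).ys.length)
    (hn : 2 ^ (cell 0).ys.length * t + i ≤ n) :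
    cSeq cell (2 ^ (cell 0).ys.length * t + i) =
      carry (fun i => (cell (2 ^ (cell 0).ys.length * t + i)).b) i := by
  set K := 2 ^ (cell 0).ys.length with hKdef
  induction i with
  | zero =>
    simp only [Nat.add_zero, carry]
    rcases Nat.eq_zero_or_pos (K * t) with h | h
    · rw [h]; rfl
    · obtain ⟨r, hr⟩ : ∃ r, K * t = r + 1 := ⟨K * t - 1, by omega⟩
      have hf : (cell (K * t)).f = true := by
        rw [G.fj _ (by omega), ← hKdef]; exact Nat.mul_mod_right _ _
      rw [hr] at hf ⊢
      simp [cSeq, hf]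
  | succ i ih =>
    have hf : (cell (K * t + i + 1)).f = false := by
      rw [G.fjf _ (by omega), ← hKdef, Nat.add_assoc, Nat.mul_add_mod,
        Nat.mod_eq_of_lt (by omega)]
      omega
    rw [← Nat.add_assoc]
    simp only [cSeq, carry, hf, Bool.false_or]
    rw [ih (by omega) (by omega)]

theorem Good.row0 (j : ℕ) (hj : j < 2 ^ (cell 0).ys.length) (hn : j ≤ n) :
    (cell j).b = false := by
  have hg : gSeq cell j = true := by
    induction j with
    | zero => rfl
    | succ j ih =>
      have hf : (cell (j + 1)).f = false := by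
        rw [G.fjf _ (by omega), Nat.mod_eq_of_lt (by omega)]; omega
      simp only [gSeq, hf, Bool.not_false, Bool.and_true]
      exact ih (by omega) (by omega)
  exact G.g j hn hg

theorem Good.size : 2 ^ 2 ^ (cell 0).ys.length ≤ n + 1 := by
  set K := 2 ^ (cell 0).ys.length with hKdef
  have hK : 0 < K := by positivity
  obtain ⟨T', hT'⟩ := Nat.dvd_of_mod_eq_zero G.last
  rw [← hKdef] at hT'
  obtain ⟨T, rfl⟩ : ∃ T, T' = T + 1 := ⟨T' - 1, by
    rcases T' with _ | T'
    · simp at hT'
    · rfl⟩
  rw [Nat.mul_succ] at hT'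
  have hlt : ∀ t ≤ T, ∀ i < K, K * t + i ≤ n := by
    intro t ht i hi
    have : K * t ≤ K * T := Nat.mul_le_mul_left _ ht
    omega
  -- the row values
  have hrow : ∀ t ≤ T, sumv (fun i => (cell (K * t + i)).b) K ≤ t := by
    intro t
    induction t with
    | zero =>
      intro _
      rw [sumv_false]
      intro i hi
      simp only [Nat.mul_zero, Nat.zero_add]
      exact G.row0 i hi (by have := hlt 0 (Nat.zero_le _) i hi; omega)
    | succ t ih =>
      intro ht
      have h1 := sumv_next (fun i => (cell (K * t + i)).b)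
        (fun i => (cell (K * (t + 1) + i)).b) K (by
          intro i hi
          have h2 := hlt (t + 1) ht i hi
          have h3 := G.vert (K * t + i) (by rw [← hKdef]; rw [Nat.mul_succ] at h2; omega)
          rw [← hKdef] at h3
          have h4 := G.cseq t i hi (hlt t (by omega) i hi)
          rw [← hKdef] at h4
          rw [h4] at h3
          rw [← h3]
          congr 2
          rw [Nat.mul_succ]; omega)
      have h2 := ih (by omega)
      omega
  have hcar : carry (fun i => (cell (K * T + i)).b) K = true := by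
    have hn : n = K * T + (K - 1) := by omega
    have h4 := G.cseq T (K - 1) (by omega) (hlt T le_rfl _ (by omega))
    rw [← hKdef, ← hn, G.e2] at h4
    have h5 := G.e1
    rw [hn] at h5
    have : K = (K - 1) + 1 := by omega
    rw [this]
    simp only [carry, Bool.and_eq_true]
    rw [← this]
    exact ⟨h5, h4.symm⟩
  have h1 := carry_sumv _ _ hcar
  have h2 := hrow T le_rfl
  have h3 : T + 1 ≤ K * (T + 1) := Nat.le_mul_of_pos_left _ hK
  rw [Nat.mul_succ] at h3
  omega

end sound

/-! ### completeness -/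

def addr (k : ℕ) : ℕ → List Bool
  | 0 => List.replicate k false
  | j + 1 => addc true (addr k j)

theorem length_addr (k j : ℕ) : (addr k j).length = k := by
  induction j with
  | zero => simp [addr]
  | succ j ih => simp [addr, length_addc, ih]

theorem val_replicate_false (k : ℕ) : val (List.replicate k false) = 0 := by
  induction k with
  | zero => rfl
  | succ k ih => simp [List.replicate_succ, val, ih]

theorem val_addr (k j : ℕ) : val (addr k j) = j % 2 ^ k := by
  induction j with
  | zero => simp [addr, val_replicate_false]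
  | succ j ih => rw [addr, val_addc_true, ih, length_addr, Nat.mod_add_mod]

def row : ℕ → ℕ → Bool
  | 0 => fun _ => false
  | t + 1 => fun i => xor (row t i) (carry (row t) i)

theorem exists_full (K : ℕ) : ∃ T, carry (row T) K = true := by
  by_contra hcon
  push Not at hcon
  have h : ∀ t, sumv (row t) K = t := by
    intro t
    induction t with
    | zero => exact sumv_false _ _ (fun i _ => rfl)
    | succ t ih =>
      have h1 := sumv_next (row t) (row (t + 1)) K (fun i _ => rfl)
      have h2 : carry (row t) K = false := by simpa using hcon t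
      rw [h2, ih] at h1
      simpa using h1
  have := sumv_lt (row (2 ^ K)) K
  rw [h] at this
  omega

def ccell (k : ℕ) (j : ℕ) : Cell :=
  ⟨row (j / 2 ^ k) (j % 2 ^ k), decide (j % 2 ^ k = 0), addr k j, (addr k j).reverse⟩

theorem div_mod_succ (K j : ℕ) (hK : 0 < K) :
    ((j + 1) % K = 0 ∧ (j + 1) / K = j / K + 1 ∧ j % K = K - 1) ∨
      ((j + 1) % K = j % K + 1 ∧ (j + 1) / K = j / K ∧ j % K + 1 < K) := by
  have h1 := Nat.div_add_mod j K
  have h2 := Nat.mod_lt j hK
  rcases Nat.lt_or_ge (j % K + 1) K with h | h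
  · right
    have h3 : j + 1 = K * (j / K) + (j % K + 1) := by omega
    refine ⟨?_, ?_, h⟩
    · conv_lhs => rw [h3]
      rw [Nat.mul_add_mod, Nat.mod_eq_of_lt h]
    · conv_lhs => rw [h3]
      rw [Nat.mul_add_div hK, Nat.div_eq_of_lt h, Nat.add_zero]
  · left
    have h3 : j + 1 = K * (j / K + 1) := by rw [Nat.mul_succ]; omega
    refine ⟨?_, ?_, by omega⟩
    · rw [h3]; exact Nat.mul_mod_right _ _
    · conv_lhs => rw [h3]
      exact Nat.mul_div_cancel_left _ hK

theorem cSeq_ccell (k j : ℕ) : cSeq (ccell k) j = carry (row (j / 2 ^ k)) (j % 2 ^ k) := by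
  have hK : 0 < 2 ^ k := by positivity
  induction j with
  | zero => simp [cSeq, carry]
  | succ j ih =>
    rcases div_mod_succ (2 ^ k) j hK with ⟨h1, h2, h3⟩ | ⟨h1, h2, h3⟩
    · simp [cSeq, ccell, h1, carry]
    · simp only [cSeq, h2, h1, carry]
      rw [ih]
      simp [ccell, h1]

theorem gSeq_ccell (k j : ℕ) : gSeq (ccell k) j = decide (j < 2 ^ k) := by
  have hK : 0 < 2 ^ k := by positivity
  induction j with
  | zero => simp [gSeq]
  | succ j ih =>
    rw [gSeq, ih]
    rcases Nat.lt_or_ge (j + 1) (2 ^ k) with h | h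
    · have : (j + 1) % 2 ^ k ≠ 0 := by rw [Nat.mod_eq_of_lt h]; omega
      simp [ccell, this, h]; omega
    · rcases Nat.eq_or_lt_of_le h with h' | h'
      · have : (j + 1) % 2 ^ k = 0 := by rw [← h']; exact Nat.mod_self _
        simp [ccell, this]; omega
      · have h1 : ¬ j < 2 ^ k := by omega
        have h2 : ¬ j + 1 < 2 ^ k := by omega
        simp [h1, h2]

theorem good_ccell (k : ℕ) : ∃ n, Good (ccell k) n := by
  have hK : 0 < 2 ^ k := by positivity
  obtain ⟨T, hT⟩ := exists_full (2 ^ k)
  obtain ⟨K', hK'⟩ : ∃ K', 2 ^ k = K' + 1 := ⟨2 ^ k - 1, by omega⟩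
  rw [hK'] at hT
  simp only [carry, Bool.and_eq_true] at hT
  have hdiv : (2 ^ k * T + K') / 2 ^ k = T := by
    rw [Nat.mul_add_div hK, Nat.div_eq_of_lt (by omega), Nat.add_zero]
  have hmod : (2 ^ k * T + K') % 2 ^ k = K' := by
    rw [Nat.mul_add_mod, Nat.mod_eq_of_lt (by omega)]
  refine ⟨2 ^ k * T + K', ?_, ?_, ?_, ?_, ?_, ?_, ?_, ?_, ?_, ?_⟩
  · simp [ccell, row]
  · simp [ccell]
  · intro j _
    rw [Bool.eq_iff_iff, allF_iff]
    simp [ccell, val_addr]
  · intro j _ hg
    rw [gSeq_ccell] at hg
    simp only [decide_eq_true_eq] at hg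
    simp [ccell, Nat.div_eq_of_lt hg, row]
  · intro j _; rfl
  · intro j _; rfl
  · intro j hj
    rw [VW_seg]
    intro p m hpm h1 h2 h3 h4
    -- p leads to the next multiple of K
    have hdm := Nat.div_add_mod j (2 ^ k)
    have hml := Nat.mod_lt j hK
    set q := j / 2 ^ k with hq
    set r := j % 2 ^ k with hr
    have hb2 : (j + 1 + p) % 2 ^ k = 0 := by simpa [ccell] using h2
    have hp : p = 2 ^ k - 1 - r := by
      rcases Nat.lt_trichotomy p (2 ^ k - 1 - r) with h | h | h
      · exfalso
        rw [show j + 1 + p = 2 ^ k * q + (r + 1 + p) by omega, Nat.mul_add_mod,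
          Nat.mod_eq_of_lt (by omega)] at hb2
        omega
      · exact h
      · exfalso
        have := h1 (2 ^ k - 1 - r) h
        have h5 : (j + 1 + (2 ^ k - 1 - r)) % 2 ^ k ≠ 0 := by simpa [ccell] using this
        apply h5
        rw [show j + 1 + (2 ^ k - 1 - r) = 2 ^ k * (q + 1) by rw [Nat.mul_succ]; omega]
        exact Nat.mul_mod_right _ _
    have hR : j + 1 + p = 2 ^ k * (q + 1) := by rw [Nat.mul_succ]; omega
    have hm : m < 2 ^ k := by
      by_contra hcon
      have := h3 (2 ^ k) (by omega) (by omega)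
      have h5 : (j + 1 + p + 2 ^ k) % 2 ^ k ≠ 0 := by simpa [ccell] using this
      apply h5
      rw [Nat.add_mod_right, hb2]
    -- equal addresses
    have h5 : val (addr k j) = val (addr k (j + 1 + p + m)) := by
      have : (ccell k j).ys = (ccell k (j + 1 + p + m)).ys := h4
      simp only [ccell] at this
      rw [this]
    rw [val_addr, val_addr, hR, Nat.mul_add_mod, Nat.mod_eq_of_lt hm, ← hr] at h5
    subst h5
    show row ((j + 1 + p + r) / 2 ^ k) ((j + 1 + p + r) % 2 ^ k) =
      xor (row (j / 2 ^ k) (j % 2 ^ k)) (cSeq (ccell k) j)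
    rw [cSeq_ccell, hR, Nat.mul_add_div hK, Nat.div_eq_of_lt hm, Nat.mul_add_mod,
      Nat.mod_eq_of_lt hm, Nat.add_zero, ← hq, ← hr]
    rfl
  · simp [ccell, hdiv, hmod, hT.1]
  · rw [cSeq_ccell, hdiv, hmod]; exact hT.2
  · rw [allT_iff]
    simp only [ccell, val_addr, length_addr, hmod]
    exact hK'.symm

end Agent.R572.PD.LL
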