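import Pool.Agent.R572.PD.Stm2

/-!
# MP_300f36_lc, piece PD6 (helper574): assembly
-/

namespace Agent.R572.PD

open Relation Asymptotics Filter

namespace Assembly

variable {A : Type}

theorem acc_of_accB (M : PDA A) (B : ℕ) (c : Config M) (h : AccB M B c) : M.Acc c := by
  induction h with
  | final c _ hc => exact PDA.Acc.final c hc
  | exist c c' _ hu hs _ ih => exact PDA.Acc.exist c c' hu hs ih
  | univ c _ hu he _ ih => exact PDA.Acc.univ c hu he ih

theorem accB_of_acc (M : PDA A) (B : ℕ) (c : Config M) (h : M.Acc c)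
    (hB : ∀ c', M.Reach c c' → c'.stack.length ≤ B) : AccB M B c := by
  induction h with
  | final c hc => exact AccB.final c (hB c ReflTransGen.refl) hc
  | exist c c' hu hs _ ih =>
    exact AccB.exist c c' (hB c ReflTransGen.refl) hu hs
      (ih (fun c'' hr => hB c'' (ReflTransGen.head hs hr)))
  | univ c hu he _ ih =>
    exact AccB.univ c (hB c ReflTransGen.refl) hu he
      (fun c' hs => ih c' hs (fun c'' hr => hB c'' (ReflTransGen.head hs hr)))

theorem coReach_of_acc (M : PDA A) (hM : M.Nondet) (c : Config M) (h : M.Acc c) :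
    CoReach M M.accepting c := by
  induction h with
  | final c hc => exact ⟨c, ReflTransGen.refl, hc⟩
  | exist c c' _ hs _ ih =>
    obtain ⟨d, hd, hd2⟩ := ih
    exact ⟨d, ReflTransGen.head hs hd, hd2⟩
  | univ c hu _ _ _ =>
    have hM' : M.universal = ∅ := hM
    rw [hM'] at hu
    exact absurd hu (Set.notMem_empty _)

theorem acc_of_coReach (M : PDA A) (hM : M.Nondet) (c : Config M)
    (h : CoReach M M.accepting c) : M.Acc c := by
  obtain ⟨d, hd, hd2⟩ := h
  unfold PDA.Reach at hd
  induction hd using ReflTransGen.head_induction_on with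
  | refl => exact PDA.Acc.final d hd2
  | head hs _ ih =>
    refine PDA.Acc.exist _ _ ?_ hs ih
    have hM' : M.universal = ∅ := hM
    rw [hM']
    exact Set.notMem_empty _

theorem strong_lower (hlin : StmLinear) (hbdd : StmBdd) (A : Type) [Finite A] (M : PDA A)
    (s : ℕ → ℝ) (hb : M.StrongBound s) (hs : s =o[atTop] (fun n : ℕ => (n : ℝ))) :
    M.language.IsRegular := by
  obtain ⟨B, hB⟩ := hlin A M Set.univ s (fun w _ c hc => hb w c hc) hs
  have h : M.language = ({w | AccB M B (M.init w)} : Language A) := by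
    apply Set.ext
    intro w
    constructor
    · intro hw
      exact accB_of_acc M B _ hw
        (fun c' hr => hB w c' hr ⟨c', ReflTransGen.refl, Set.mem_univ _⟩)
    · intro hw
      exact acc_of_accB M B _ hw
  rw [h]
  exact hbdd A M B

theorem middle_nondet_lower (hlin : StmLinear) (hbdd : StmBdd) (A : Type) [Finite A] (M : PDA A)
    (hM : M.Nondet) (s : ℕ → ℝ) (hb : M.MiddleBound s)
    (hs : s =o[atTop] (fun n : ℕ => (n : ℝ))) : M.language.IsRegular := by
  obtain ⟨B, hB⟩ := hlin A M M.accepting s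
    (fun w hw c hc => hb w (acc_of_coReach M hM _ hw) c hc) hs
  have h : M.language = ({w | AccB M B (M.init w)} : Language A) := by
    apply Set.ext
    intro w
    constructor
    · intro hw
      have key : ∀ c : Config M, M.Acc c → M.Reach (M.init w) c → AccB M B c := by
        intro c hc
        have hco : ∀ c : Config M, M.Acc c → CoReach M M.accepting c := coReach_of_acc M hM
        induction hc with
        | final c hc =>
          intro hr
          exact AccB.final c (hB w c hr (hco c (PDA.Acc.final c hc))) hc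
        | exist c c' hu hs' hacc ih =>
          intro hr
          exact AccB.exist c c' (hB w c hr (hco c (PDA.Acc.exist c c' hu hs' hacc))) hu hs'
            (ih (ReflTransGen.tail hr hs'))
        | univ c hu _ _ _ =>
          have hM' : M.universal = ∅ := hM
          rw [hM'] at hu
          exact absurd hu (Set.notMem_empty _)
      exact key _ hw ReflTransGen.refl
    · intro hw
      exact acc_of_accB M B _ hw
  rw [h]
  exact hbdd A M B

theorem middle_of_strong (M : PDA A) (s : ℕ → ℝ) (h : M.StrongBound s) : M.MiddleBound s :=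
  fun w _ c hc => h w c hc

theorem lin_bigO : (fun n : ℕ => (n : ℝ) + 1) =O[atTop] (fun n : ℕ => (n : ℝ)) := by
  apply IsBigO.of_bound 2
  filter_upwards [eventually_ge_atTop 1] with n hn
  have h1 : (1 : ℝ) ≤ n := by exact_mod_cast hn
  rw [Real.norm_eq_abs, Real.norm_eq_abs, abs_of_nonneg (by positivity),
    abs_of_nonneg (by positivity)]
  linarith

theorem log_bigO : (fun n : ℕ => (Nat.log 2 (Nat.log 2 n) : ℝ) + 2) =O[atTop]
    (fun n : ℕ => Real.log (Real.log (n : ℝ))) := by
  have ht : Tendsto (fun n : ℕ => Real.log (Real.log (n : ℝ))) atTop atTop :=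
    Real.tendsto_log_atTop.comp (Real.tendsto_log_atTop.comp (tendsto_natCast_atTop_atTop (R := ℝ)))
  have hlog2 : (1 : ℝ) / 2 ≤ Real.log 2 := by
    have := Real.log_two_gt_d9
    linarith
  have key : ∀ m : ℕ, 1 ≤ m → (Nat.log 2 m : ℝ) * Real.log 2 ≤ Real.log m := by
    intro m hm
    have h1 : (2 : ℕ) ^ Nat.log 2 m ≤ m := Nat.pow_log_le_self 2 (by omega)
    have h2 : ((2 : ℝ)) ^ Nat.log 2 m ≤ m := by exact_mod_cast h1
    have h3 := Real.log_le_log (by positivity) h2
    rwa [Real.log_pow] at h3
  apply IsBigO.of_bound 6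
  filter_upwards [ht.eventually_ge_atTop 1, eventually_ge_atTop 4] with n h1 hn
  have h4 : (4 : ℝ) ≤ n := by exact_mod_cast hn
  rw [Real.norm_eq_abs, Real.norm_eq_abs, abs_of_nonneg (by positivity),
    abs_of_nonneg (by linarith)]
  have hL1 : 1 ≤ Nat.log 2 n := Nat.log_pos (by norm_num) (by omega)
  have hm := key (Nat.log 2 n) hL1
  have hn' := key n (by omega)
  have hlogn : 0 < Real.log n := Real.log_pos (by linarith)
  have h5 : (Nat.log 2 n : ℝ) ≤ 2 * Real.log n := by
    have h6 : 0 ≤ (Nat.log 2 n : ℝ) := by positivity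
    nlinarith
  have h6 : Real.log (Nat.log 2 n : ℝ) ≤ Real.log 2 + Real.log (Real.log n) := by
    rw [← Real.log_mul (by norm_num) hlogn.ne']
    apply Real.log_le_log _ h5
    have : (1 : ℝ) ≤ (Nat.log 2 n : ℝ) := by exact_mod_cast hL1
    linarith
  have h7 : Real.log 2 ≤ 1 := by
    have := Real.log_two_lt_d9
    linarith
  have h8 : 0 ≤ (Nat.log 2 (Nat.log 2 n) : ℝ) := by positivity
  nlinarith

theorem exists_lin (hup : StmUpperLin) (C : Cls) (m : Mode) :
    ∃ (A : Type) (_ : Finite A) (M : PDA A) (s : ℕ → ℝ), C.Mem M ∧ m.Bound M s ∧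
      s =O[atTop] (fun n : ℕ => (n : ℝ)) ∧ ¬ M.language.IsRegular := by
  obtain ⟨M, hn, hr, hs, hreg⟩ := hup
  refine ⟨Bool, inferInstance, M, fun n => (n : ℝ) + 1, ?_, ?_, lin_bigO, hreg⟩
  · cases C
    · exact hn
    · exact ⟨hn, hr⟩
    · exact trivial
    · exact hr
  · cases m
    · exact hs
    · exact middle_of_strong M _ hs

end Assembly

theorem stmAssembly : StmAssembly := by
  intro hlin hbdd hll huplin hupll
  refine ⟨?_, ?_, ?_, ?_, ?_⟩
  · intro C
    refine ⟨Assembly.exists_lin huplin C .strong, ?_⟩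
    intro A _ M s _ hb hs
    exact Assembly.strong_lower hlin hbdd A M s hb hs
  · refine ⟨Assembly.exists_lin huplin _ .middle, ?_⟩
    intro A _ M s hM hb hs
    exact Assembly.middle_nondet_lower hlin hbdd A M hM s hb hs
  · refine ⟨Assembly.exists_lin huplin _ .middle, ?_⟩
    intro A _ M s hM hb hs
    exact Assembly.middle_nondet_lower hlin hbdd A M hM.1 s hb hs
  · refine ⟨?_, ?_⟩
    · obtain ⟨A, hA, M, _, hb, hreg⟩ := hupll
      exact ⟨A, hA, M, fun n => (Nat.log 2 (Nat.log 2 n) : ℝ) + 2, trivial, hb, Assembly.log_bigO, hreg⟩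
    · intro A _ M s _ hb hs
      exact hll A M s hb hs
  · refine ⟨?_, ?_⟩
    · obtain ⟨A, hA, M, hr, hb, hreg⟩ := hupll
      exact ⟨A, hA, M, fun n => (Nat.log 2 (Nat.log 2 n) : ℝ) + 2, hr, hb, Assembly.log_bigO, hreg⟩
    · intro A _ M s _ hb hs
      exact hll A M s hb hs

end Agent.R572.PD
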