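import Pool.Agent.R572.PD.Stm

/-!
# MP_300f36_lc, piece PD2: bounded height gives regular languages
-/

namespace Agent.R572.PD

open Relation Asymptotics Filter

namespace Bdd

variable {A : Type}

/-- the accepting pairs (state, store) in front of the input `v` -/
def Av (M : PDA A) (B : ℕ) (v : List A) : Set (M.Q × List M.G) := {p | AccB M B ⟨p.1, p.2, v⟩}

theorem AccB.len {M : PDA A} {B : ℕ} {c : Config M} (h : AccB M B c) : c.stack.length ≤ B := by
  cases h with
  | final _ h1 _ => exact h1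
  | exist _ _ h1 _ _ _ => exact h1
  | univ _ h1 _ _ _ => exact h1

theorem cons_step {M : PDA A} {B : ℕ} {v v' : List A} (h : Av M B v ⊆ Av M B v') (a : A)
    {c : Config M} (hc : AccB M B c) : c.rest = a :: v → AccB M B ⟨c.state, c.stack, a :: v'⟩ := by
  induction hc with
  | final c h1 h2 =>
    intro _
    exact AccB.final _ h1 h2
  | exist c c' h1 h2 h3 h4 ih =>
    intro hr
    obtain ⟨Z, γ, α, q', m, e1, e2, e3⟩ := h3
    cases m with
    | false =>
      have e4 : c'.rest = a :: v := by rw [e3]; simpa using hr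
      have h5 := ih e4
      refine AccB.exist _ ⟨c'.state, c'.stack, a :: v'⟩ h1 h2 ⟨Z, γ, α, q', false, e1, ?_, ?_⟩ h5
      · rw [hr] at e2; exact e2
      · rw [e3]; rfl
    | true =>
      have e4 : c' = ⟨q', α ++ γ, v⟩ := by rw [e3, hr]; rfl
      have h5 : (q', α ++ γ) ∈ Av M B v' := h (by rw [e4] at h4; exact h4)
      refine AccB.exist _ ⟨q', α ++ γ, v'⟩ h1 h2 ⟨Z, γ, α, q', true, e1, ?_, rfl⟩ h5
      rw [hr] at e2; exact e2
  | univ c h1 h2 h3 h4 ih =>
    intro hr
    have hmap : ∀ c'' : Config M, M.Step ⟨c.state, c.stack, a :: v'⟩ c'' →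
        ∃ c', M.Step c c' ∧ (c'.rest = a :: v ∧ c'' = ⟨c'.state, c'.stack, a :: v'⟩ ∨
          c'.rest = v ∧ c'' = ⟨c'.state, c'.stack, v'⟩) := by
      rintro c'' ⟨Z, γ, α, q', m, e1, e2, e3⟩
      refine ⟨⟨q', α ++ γ, if m then c.rest.tail else c.rest⟩, ⟨Z, γ, α, q', m, e1, ?_, rfl⟩, ?_⟩
      · rw [hr]; exact e2
      · cases m with
        | false => left; rw [e3]; exact ⟨by simpa using hr, rfl⟩
        | true => right; rw [e3, hr]; exact ⟨rfl, rfl⟩
    refine AccB.univ _ h1 h2 ?_ ?_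
    · obtain ⟨c', Z, γ, α, q', m, e1, e2, e3⟩ := h3
      refine ⟨⟨q', α ++ γ, if m then v' else a :: v'⟩, Z, γ, α, q', m, e1, ?_, rfl⟩
      rw [hr] at e2; exact e2
    · intro c'' hs
      obtain ⟨c', hs', h5 | h5⟩ := hmap c'' hs
      · rw [h5.2]; exact ih c' hs' h5.1
      · rw [h5.2]
        have h6 := h4 c' hs'
        have h7 : (c'.state, c'.stack) ∈ Av M B v := by
          have e : c' = ⟨c'.state, c'.stack, v⟩ := by
            obtain ⟨h8, _⟩ := h5
            cases c'; simp only at h8; rw [h8]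
          rw [e] at h6; exact h6
        exact h h7

theorem app_sub {M : PDA A} {B : ℕ} {v v' : List A} (h : Av M B v ⊆ Av M B v') (x : List A) :
    Av M B (x ++ v) ⊆ Av M B (x ++ v') := by
  induction x with
  | nil => exact h
  | cons a x ih =>
    rintro ⟨q, γ⟩ hp
    exact cons_step ih a hp rfl

theorem fin_range (M : PDA A) (B : ℕ) : (Set.range (Av M B)).Finite := by
  have := M.finQ
  have := M.finG
  have h1 : ((Set.univ : Set M.Q) ×ˢ {l : List M.G | l.length ≤ B}).Finite :=
    Set.finite_univ.prod (List.finite_length_le M.G B)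
  refine h1.powerset.subset ?_
  rintro _ ⟨v, rfl⟩ ⟨q, γ⟩ hp
  exact ⟨Set.mem_univ _, AccB.len hp⟩

end Bdd

open Bdd in
/-- Piece PD2. -/
theorem stmBdd : StmBdd := by
  intro A _ M B
  refine Language.IsRegular.of_finite_range_leftQuotient ?_
  have h1 := (fin_range M B).powerset
  refine (h1.image fun T => ({v | Av M B v ∈ T} : Language A)).subset ?_
  rintro _ ⟨x, rfl⟩
  refine ⟨{S | ∃ v, S = Av M B v ∧ AccB M B (M.init (x ++ v))}, ?_, ?_⟩
  · rintro _ ⟨v, rfl, _⟩
    exact ⟨v, rfl⟩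
  · ext v
    constructor
    · rintro ⟨v', h2, h3⟩
      have h4 : (M.start, [M.bottom]) ∈ Av M B (x ++ v') := h3
      exact app_sub h2.symm.subset x h4
    · intro h2
      exact ⟨v, rfl, h2⟩

end Agent.R572.PD
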