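import Pool.Agent.R572.PD.Mach2

/-!
# Cells by index; counting
-/

namespace Agent.R572.PD.LL

open Letter St

/-- the cells number `i, ..., i+n-1` -/
def seg (cell : ℕ → Cell) : ℕ → ℕ → List Cell
  | _, 0 => []
  | i, n + 1 => cell i :: seg cell (i + 1) n

theorem seg_of_list (L : List Cell) : ∀ (cell : ℕ → Cell) (i : ℕ),
    (∀ j (h : j < L.length), cell (i + j) = L[j]) → L = seg cell i L.length := by
  induction L with
  | nil => intro cell i _; rfl
  | cons c L ih =>
    intro cell i h
    have h0 := h 0 (by simp)
    simp only [Nat.add_zero, List.getElem_cons_zero] at h0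
    simp only [List.length_cons, seg]
    rw [h0]
    congr 1
    apply ih
    intro j hj
    have := h (j + 1) (by simpa using hj)
    simp only [List.getElem_cons_succ] at this
    rw [← this]; congr 1; omega

theorem exists_seg (L : List Cell) : ∃ cell : ℕ → Cell, L = seg cell 0 L.length := by
  refine ⟨fun i => L.getD i ⟨false, false, [], []⟩, seg_of_list L _ 0 ?_⟩
  intro j hj
  simp [hj]

theorem VN_seg (cell : ℕ → Cell) (e : Bool) (zs : List Bool) (n : ℕ) : ∀ j,
    VN e zs (seg cell j n) ↔ ∀ m < n, (∀ l ≤ m, (cell (j + l)).f = false) →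
      VC e zs (cell (j + m)) := by
  induction n with
  | zero => intro j; simp [seg, VN]
  | succ n ih =>
    intro j
    simp only [seg, VN, ih]
    constructor
    · intro h m hm hl
      have hf := hl 0 (Nat.zero_le _)
      simp only [Nat.add_zero] at hf
      obtain ⟨h1, h2⟩ := h hf
      rcases m with _ | m
      · exact h1
      · have := h2 m (by omega) (fun l hl' => by
          have := hl (l + 1) (by omega)
          rwa [show j + 1 + l = j + (l + 1) by omega])
        rwa [show j + 1 + m = j + (m + 1) by omega] at this
    · intro h hf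
      refine ⟨?_, ?_⟩
      · have := h 0 (by omega) (fun l hl => by
          obtain rfl : l = 0 := by omega
          exact hf)
        exact this
      · intro m hm hl
        have := h (m + 1) (by omega) (fun l hl' => by
          rcases l with _ | l
          · exact hf
          · have := hl l (by omega)
            rwa [show j + 1 + l = j + (l + 1) by omega] at this)
        rwa [show j + 1 + m = j + (m + 1) by omega]

theorem VW_seg (cell : ℕ → Cell) (e : Bool) (zs : List Bool) (n : ℕ) : ∀ j,
    VW e zs (seg cell j n) ↔ ∀ p m, p + m < n → (∀ l < p, (cell (j + l)).f = false) →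
      (cell (j + p)).f = true → (∀ l, 1 ≤ l → l ≤ m → (cell (j + p + l)).f = false) →
      VC e zs (cell (j + p + m)) := by
  induction n with
  | zero => intro j; simp [seg, VW]
  | succ n ih =>
    intro j
    simp only [seg, VW, ih, VN_seg]
    constructor
    · rintro ⟨h1, h2⟩ p m hpm hl hf hl2
      rcases p with _ | p
      · simp only [Nat.add_zero] at hf hl2 ⊢
        obtain ⟨h3, h4⟩ := h1 hf
        rcases m with _ | m
        · exact h3
        · have := h4 m (by omega) (fun l hl' => by
            have := hl2 (l + 1) (by omega) (by omega)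
            rwa [show j + 1 + l = j + (l + 1) by omega])
          rwa [show j + 1 + m = j + (m + 1) by omega] at this
      · have hf0 := hl 0 (by omega)
        simp only [Nat.add_zero] at hf0
        have := h2 hf0 p m (by omega) (fun l hl' => by
          have := hl (l + 1) (by omega)
          rwa [show j + 1 + l = j + (l + 1) by omega])
          (by rwa [show j + 1 + p = j + (p + 1) by omega])
          (fun l hl1 hlm => by
            have := hl2 l hl1 hlm
            rwa [show j + 1 + p + l = j + (p + 1) + l by omega])
        rwa [show j + 1 + p + m = j + (p + 1) + m by omega] at this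
    · intro h
      refine ⟨fun hf => ⟨?_, ?_⟩, fun hf => ?_⟩
      · have := h 0 0 (by omega) (fun l hl => by omega) hf (fun l h1 h2 => by omega)
        exact this
      · intro m hm hl
        have := h 0 (m + 1) (by omega) (fun l hl => by omega) hf (fun l h1 h2 => by
          have := hl (l - 1) (by omega)
          rwa [show j + 1 + (l - 1) = j + 0 + l by omega] at this)
        rwa [show j + 1 + m = j + 0 + (m + 1) by omega]
      · intro p m hpm hl hf' hl2
        have := h (p + 1) m (by omega) (fun l hl' => by
          rcases l with _ | l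
          · exact hf
          · have := hl l (by omega)
            rwa [show j + 1 + l = j + (l + 1) by omega] at this)
          (by rwa [show j + 1 + p = j + (p + 1) by omega] at hf')
          (fun l h1 h2 => by
            have := hl2 l h1 h2
            rwa [show j + 1 + p + l = j + (p + 1) + l by omega] at this)
        rwa [show j + 1 + p + m = j + (p + 1) + m by omega]

def cSeq (cell : ℕ → Cell) : ℕ → Bool
  | 0 => true
  | i + 1 => (cell (i + 1)).f || ((cell i).b && cSeq cell i)

def gSeq (cell : ℕ → Cell) : ℕ → Bool
  | 0 => true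
  | i + 1 => gSeq cell i && !(cell (i + 1)).f

theorem Scan_seg (cell : ℕ → Cell) (n : ℕ) : ∀ i,
    Scan (cSeq cell i) (gSeq cell i) (cell i) (seg cell (i + 1) n) ↔
      (∀ j, i ≤ j → j ≤ i + n → (cell j).f = allF (cell j).ys) ∧
      (∀ j, i < j → j ≤ i + n → (gSeq cell j = true → (cell j).b = false) ∧
        Loc (cSeq cell j) (cell j) (seg cell (j + 1) (i + n - j))) ∧
      ((cell (i + n)).b = true ∧ cSeq cell (i + n) = true ∧ allT (cell (i + n)).ys = true) := by
  induction n with
  | zero =>
    intro i
    simp only [seg, Scan, Nat.add_zero]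
    constructor
    · rintro ⟨h1, h2⟩
      refine ⟨fun j h3 h4 => ?_, fun j h3 h4 => by omega, h2⟩
      obtain rfl : j = i := by omega
      exact h1
    · rintro ⟨h1, -, h2⟩
      exact ⟨h1 i le_rfl le_rfl, h2⟩
  | succ n ih =>
    intro i
    have hc : cSeq cell (i + 1) = ((cell (i + 1)).f || ((cell i).b && cSeq cell i)) := rfl
    have hg : gSeq cell (i + 1) = (gSeq cell i && !(cell (i + 1)).f) := rfl
    simp only [seg, Scan]
    rw [← hc, ← hg, ih (i + 1)]
    constructor
    · rintro ⟨h1, h2, h3, h4, h5, h6⟩
      refine ⟨fun j h7 h8 => ?_, fun j h7 h8 => ?_, ?_⟩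
      · rcases Nat.eq_or_lt_of_le h7 with rfl | h9
        · exact h1
        · exact h4 j (by omega) (by omega)
      · rcases Nat.eq_or_lt_of_le (Nat.succ_le_of_lt h7) with h9 | h9
        · obtain rfl : j = i + 1 := by omega
          rw [show i + (n + 1) - (i + 1) = n by omega]
          exact ⟨h2, h3⟩
        · have := h5 j (by omega) (by omega)
          rwa [show i + (n + 1) - j = i + 1 + n - j by omega]
      · rwa [show i + (n + 1) = i + 1 + n by omega]
    · rintro ⟨h1, h2, h3⟩
      have h4 := h2 (i + 1) (by omega) (by omega)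
      rw [show i + (n + 1) - (i + 1) = n by omega] at h4
      refine ⟨h1 i le_rfl (by omega), h4.1, h4.2, fun j h5 h6 => h1 j (by omega) (by omega),
        fun j h5 h6 => ?_, ?_⟩
      · have := h2 j (by omega) (by omega)
        rwa [show i + (n + 1) - j = i + 1 + n - j by omega] at this
      · rwa [show i + (n + 1) = i + 1 + n by omega] at h3

/-- index form of acceptance of the word with cells `0, ..., n` -/
structure Good (cell : ℕ → Cell) (n : ℕ) : Prop where
  b0 : (cell 0).b = false
  f0 : (cell 0).f = true
  f : ∀ j ≤ n, (cell j).f = allF (cell j).ys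
  g : ∀ j ≤ n, gSeq cell j = true → (cell j).b = false
  x : ∀ j ≤ n, (cell j).xs = (cell j).ys.reverse
  y : ∀ j < n, (cell (j + 1)).ys = addc true (cell j).ys
  v : ∀ j ≤ n, VW (xor (cell j).b (cSeq cell j)) (cell j).ys (seg cell (j + 1) (n - j))
  e1 : (cell n).b = true
  e2 : cSeq cell n = true
  e3 : allT (cell n).ys = true

theorem iCheck_seg (zs : List Bool) (cell : ℕ → Cell) (i n : ℕ) :
    ICheck zs (seg cell i n) ↔ (0 < n → (cell i).ys = addc true zs) := by
  cases n <;> simp [seg, ICheck]

theorem accept_iff (cell : ℕ → Cell) (n : ℕ) :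
    A s0 [none] (word (seg cell 0 (n + 1))) ↔ Good cell n := by
  have h := Scan_seg cell n 0
  simp only [Nat.zero_add] at h
  have h' : A s0 [none] (word (seg cell 0 (n + 1))) ↔ (cell 0).b = false ∧ (cell 0).f = true ∧
      Loc (cSeq cell 0) (cell 0) (seg cell 1 n) ∧
      Scan (cSeq cell 0) (gSeq cell 0) (cell 0) (seg cell 1 n) := by
    simp only [seg]
    exact A_s0 _ _
  rw [h', h]
  constructor
  · rintro ⟨h1, h2, h3, h4, h5, h6, h7, h8⟩
    have hLoc : ∀ j ≤ n, Loc (cSeq cell j) (cell j) (seg cell (j + 1) (n - j)) := by
      intro j hj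
      rcases Nat.eq_zero_or_pos j with rfl | hj0
      · simpa using h3
      · exact (h5 j hj0 hj).2
    refine ⟨h1, h2, fun j hj => h4 j (Nat.zero_le _) hj, ?_, fun j hj => (hLoc j hj).1,
      fun j hj => ?_, fun j hj => (hLoc j hj).2.2, h6, h7, h8⟩
    · intro j hj hg
      rcases Nat.eq_zero_or_pos j with rfl | hj0
      · exact h1
      · exact (h5 j hj0 hj).1 hg
    · have := (hLoc j hj.le).2.1
      rw [iCheck_seg] at this
      exact this (by omega)
  · intro G
    have hLoc : ∀ j ≤ n, Loc (cSeq cell j) (cell j) (seg cell (j + 1) (n - j)) := by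
      intro j hj
      refine ⟨G.x j hj, ?_, G.v j hj⟩
      rw [iCheck_seg]
      intro h
      exact G.y j (by omega)
    refine ⟨G.b0, G.f0, ?_, fun j _ hj => G.f j hj, fun j _ hj => ⟨G.g j hj, hLoc j hj⟩,
      G.e1, G.e2, G.e3⟩
    simpa using hLoc 0 (Nat.zero_le _)

/-! ### binary numbers, least significant bit first -/

def val : List Bool → ℕ
  | [] => 0
  | b :: l => b.toNat + 2 * val l

theorem val_lt (l : List Bool) : val l < 2 ^ l.length := by
  induction l with
  | nil => simp [val]
  | cons b l ih =>
    have : b.toNat ≤ 1 := Bool.toNat_le b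
    simp only [val, List.length_cons, pow_succ]
    omega

theorem val_inj : ∀ (l l' : List Bool), l.length = l'.length → val l = val l' → l = l' := by
  intro l
  induction l with
  | nil => intro l' h _; simp at h; exact (List.length_eq_zero_iff.1 h.symm).symm
  | cons b l ih =>
    intro l' h hv
    cases l' with
    | nil => simp at h
    | cons b' l' =>
      simp only [val] at hv
      have h1 : b.toNat ≤ 1 := Bool.toNat_le b
      have h2 : b'.toNat ≤ 1 := Bool.toNat_le b'
      have h3 : b.toNat = b'.toNat := by omega
      have h4 : val l = val l' := by omega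
      have h5 : b = b' := by cases b <;> cases b' <;> simp_all
      rw [h5, ih l' (by simpa using h) h4]

theorem length_addc (l : List Bool) : ∀ c, (addc c l).length = l.length := by
  induction l with
  | nil => intro c; rfl
  | cons b l ih => intro c; simp [addc, ih]

theorem val_addc (l : List Bool) : ∀ c, ∃ o : Bool,
    val (addc c l) + 2 ^ l.length * o.toNat = val l + c.toNat := by
  induction l with
  | nil => intro c; exact ⟨c, by simp [addc, val]⟩
  | cons b l ih =>
    intro c
    obtain ⟨o, ho⟩ := ih (b && c)
    refine ⟨o, ?_⟩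
    simp only [addc, val, List.length_cons, pow_succ]
    have : (xor b c).toNat + 2 * (b && c).toNat = b.toNat + c.toNat := by
      cases b <;> cases c <;> rfl
    have h2 : 2 ^ l.length * 2 * o.toNat = 2 * (2 ^ l.length * o.toNat) := by ring
    rw [h2]
    omega

theorem val_addc_true (l : List Bool) : val (addc true l) = (val l + 1) % 2 ^ l.length := by
  obtain ⟨o, ho⟩ := val_addc l true
  have h1 := val_lt (addc true l)
  rw [length_addc] at h1
  have h3 : (true : Bool).toNat = 1 := rfl
  rw [h3] at ho
  rw [← ho, Nat.add_mul_mod_self_left, Nat.mod_eq_of_lt h1]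

theorem allF_iff (l : List Bool) : allF l = true ↔ val l = 0 := by
  induction l with
  | nil => simp [allF, val]
  | cons b l ih =>
    simp only [allF, List.all_cons, Bool.and_eq_true] at ih ⊢
    rw [ih]
    cases b <;> simp [val]

theorem allT_iff (l : List Bool) : allT l = true ↔ val l + 1 = 2 ^ l.length := by
  induction l with
  | nil => simp [allT, val]
  | cons b l ih =>
    simp only [allT, List.all_cons, Bool.and_eq_true] at ih ⊢
    rw [ih]
    cases b
    · simp only [Bool.false_eq_true, false_and, val, Bool.toNat_false, List.length_cons, pow_succ,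
        false_iff]
      omega
    · simp only [true_and, val, Bool.toNat_true, List.length_cons, pow_succ]
      omega

/-! ### rows -/

def carry (ρ : ℕ → Bool) : ℕ → Bool
  | 0 => true
  | m + 1 => ρ m && carry ρ m

def sumv (ρ : ℕ → Bool) : ℕ → ℕ
  | 0 => 0
  | m + 1 => sumv ρ m + (ρ m).toNat * 2 ^ m

theorem sumv_lt (ρ : ℕ → Bool) (m : ℕ) : sumv ρ m < 2 ^ m := by
  induction m with
  | zero => simp [sumv]
  | succ m ih =>
    have h1 : (ρ m).toNat ≤ 1 := Bool.toNat_le _
    have h2 : (ρ m).toNat * 2 ^ m ≤ 1 * 2 ^ m := Nat.mul_le_mul_right _ h1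
    simp only [sumv, pow_succ]
    omega

theorem sumv_next (ρ ρ' : ℕ → Bool) (m : ℕ) (h : ∀ i < m, ρ' i = xor (ρ i) (carry ρ i)) :
    sumv ρ' m + 2 ^ m * (carry ρ m).toNat = sumv ρ m + 1 := by
  induction m with
  | zero => simp [sumv, carry]
  | succ m ih =>
    have ih' := ih (fun i hi => h i (by omega))
    simp only [sumv, carry, pow_succ]
    rw [h m (by omega)]
    cases ρ m <;> cases hc : carry ρ m <;> simp [hc] at ih' ⊢ <;> omega

theorem carry_sumv (ρ : ℕ → Bool) (m : ℕ) (h : carry ρ m = true) : sumv ρ m + 1 = 2 ^ m := by
  induction m with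
  | zero => simp [sumv]
  | succ m ih =>
    simp only [carry, Bool.and_eq_true] at h
    have := ih h.2
    simp only [sumv, h.1, Bool.toNat_true, pow_succ]
    omega

theorem sumv_false (ρ : ℕ → Bool) (m : ℕ) (h : ∀ i < m, ρ i = false) : sumv ρ m = 0 := by
  induction m with
  | zero => rfl
  | succ m ih => simp [sumv, ih (fun i hi => h i (by omega)), h m (by omega)]

end Agent.R572.PD.LL
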