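import Mathlib

/-!
# One-way pushdown automata and pushdown space (MP_300f36_lc): definitions
-/

namespace Agent.R572.PD

open Relation Asymptotics Filter

/-- A one-way pushdown automaton over the input alphabet `A` (nondeterministic or alternating).
`δ q a Z` is the (finite) list of possible moves in state `q` when the head scans `a`
(`none` is the right end-marker) and the top symbol of the pushdown store is `Z`.
A move `(q', α, m)` goes to state `q'`, replaces the top symbol by the word `α`
(leftmost symbol of `α` on top) and advances the head iff `m = true`. -/
structure PDA (A : Type) where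
  Q : Type
  G : Type
  finQ : Finite Q
  finG : Finite G
  start : Q
  bottom : G
  universal : Set Q
  accepting : Set Q
  δ : Q → Option A → G → List (Q × List G × Bool)

variable {A : Type}

/-- A configuration: state, pushdown store (top first), unread part of the input. -/
structure Config (M : PDA A) where
  state : M.Q
  stack : List M.G
  rest : List A

namespace PDA

/-- The initial configuration on input `w`: the store holds the bottom symbol only. -/
def init (M : PDA A) (w : List A) : Config M := ⟨M.start, [M.bottom], w⟩

/-- One step.  (No step is possible from an empty store.) -/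
def Step (M : PDA A) (c c' : Config M) : Prop :=
  ∃ (Z : M.G) (γ α : List M.G) (q' : M.Q) (m : Bool), c.stack = Z :: γ ∧
    (q', α, m) ∈ M.δ c.state c.rest.head? Z ∧
    c' = ⟨q', α ++ γ, if m then c.rest.tail else c.rest⟩

/-- `c'` occurs in some computation that starts in `c`. -/
def Reach (M : PDA A) (c c' : Config M) : Prop := ReflTransGen M.Step c c'

/-- There is an accepting computation tree with root `c`: its leaves are configurations with
accepting states, an existential configuration has one successor in the tree, a universal
configuration has at least one successor and all its successors are in the tree. -/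
inductive Acc (M : PDA A) : Config M → Prop
  | final (c : Config M) : c.state ∈ M.accepting → Acc M c
  | exist (c c' : Config M) : c.state ∉ M.universal → M.Step c c' → Acc M c' → Acc M c
  | univ (c : Config M) : c.state ∈ M.universal → (∃ c', M.Step c c') →
      (∀ c', M.Step c c' → Acc M c') → Acc M c

/-- The language recognised by `M`. -/
def language (M : PDA A) : Language A := {w | M.Acc (M.init w)}

/-- Nondeterministic: no universal states. -/
def Nondet (M : PDA A) : Prop := M.universal = ∅

/-- Exactly `t` steps lead from `c` to `c'`. -/
def StepN (M : PDA A) : ℕ → Config M → Config M → Prop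
  | 0, c, c' => c = c'
  | t + 1, c, c' => ∃ c'', M.Step c c'' ∧ M.StepN t c'' c'

/-- Realtime: in every computation, at most `r` consecutive steps are made while the head stays
on the same input symbol (or on the end-marker). -/
def Realtime (M : PDA A) : Prop :=
  ∃ r : ℕ, ∀ (w : List A) (c c' : Config M) (t : ℕ),
    M.Reach (M.init w) c → M.StepN t c c' → c'.rest = c.rest → t ≤ r

/-- `s` is a strong space bound. -/
def StrongBound (M : PDA A) (s : ℕ → ℝ) : Prop :=
  ∀ (w : List A) (c : Config M), M.Reach (M.init w) c → (c.stack.length : ℝ) ≤ s w.length

/-- `s` is a middle space bound. -/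
def MiddleBound (M : PDA A) (s : ℕ → ℝ) : Prop :=
  ∀ w : List A, w ∈ M.language →
    ∀ c : Config M, M.Reach (M.init w) c → (c.stack.length : ℝ) ≤ s w.length

end PDA

/-- The four machine classes. -/
inductive Cls
  | oneWayNondet
  | realtimeNondet
  | oneWayAlt
  | realtimeAlt

/-- Membership of a machine in a class (all our machines are one-way; an alternating machine is
any machine). -/
def Cls.Mem : Cls → ∀ {A : Type}, PDA A → Prop
  | .oneWayNondet, _, M => M.Nondet
  | .realtimeNondet, _, M => M.Nondet ∧ M.Realtime
  | .oneWayAlt, _, _ => True
  | .realtimeAlt, _, M => M.Realtime

/-- The two space modes of the question. -/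
inductive Mode
  | strong
  | middle

/-- `s` is a space bound for `M` in the given mode. -/
def Mode.Bound : Mode → ∀ {A : Type}, PDA A → (ℕ → ℝ) → Prop
  | .strong, _, M, s => M.StrongBound s
  | .middle, _, M, s => M.MiddleBound s

/-- `f` is a tight bound for nonregular recognition by machines of class `C` in mode `m`:
some nonregular language (over some finite alphabet) is recognised in space `O(f)`, and every
language recognised in space `o(f)` is regular. -/
def TightBound (C : Cls) (m : Mode) (f : ℕ → ℝ) : Prop :=
  (∃ (A : Type) (_ : Finite A) (M : PDA A) (s : ℕ → ℝ), C.Mem M ∧ m.Bound M s ∧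
      s =O[atTop] f ∧ ¬ M.language.IsRegular) ∧
  (∀ (A : Type) [Finite A] (M : PDA A) (s : ℕ → ℝ), C.Mem M → m.Bound M s →
      s =o[atTop] f → M.language.IsRegular)

end Agent.R572.PD
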