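import Pool.Agent.R572.PD.Stm

/-!
# MP_300f36_lc, piece PD1: sublinear store height is bounded
-/

namespace Agent.R572.PD

open Relation Asymptotics Filter

namespace Lin

variable {A : Type}

theorem unif {T L : Type} [Finite T] (len : L → ℕ) (P : T → L → Prop) :
    ∃ C : ℕ, ∀ t, (∃ l, P t l) → ∃ l, len l ≤ C ∧ P t l := by
  classical
  obtain ⟨f, hf⟩ : ∃ f : T → ℕ, ∀ t, (∃ l, P t l) → ∃ l, len l ≤ f t ∧ P t l := by
    have : ∀ t, ∃ n : ℕ, (∃ l, P t l) → ∃ l, len l ≤ n ∧ P t l := by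
      intro t
      by_cases h : ∃ l, P t l
      · obtain ⟨l, hl⟩ := h
        exact ⟨len l, fun _ => ⟨l, le_rfl, hl⟩⟩
      · exact ⟨0, fun h' => absurd h' h⟩
    choose f hf using this
    exact ⟨f, hf⟩
  obtain ⟨C, hC⟩ := (Set.finite_range f).bddAbove
  refine ⟨C, fun t ht => ?_⟩
  obtain ⟨l, h1, h2⟩ := hf t ht
  exact ⟨l, h1.trans (hC ⟨t, rfl⟩), h2⟩

theorem head_app {u y y' : List A} (h : y.head? = y'.head?) : (u ++ y).head? = (u ++ y').head? := by
  cases u with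
  | nil => exact h
  | cons a u => rfl

theorem head_or (u y : List A) : (u ++ y).head? = u.head?.or y.head? := by
  cases u with
  | nil => rfl
  | cons a u => rfl

theorem step_lift {M : PDA A} {c c' : Config M} (h : M.Step c c') (γ : List M.G) :
    M.Step ⟨c.state, c.stack ++ γ, c.rest⟩ ⟨c'.state, c'.stack ++ γ, c'.rest⟩ := by
  obtain ⟨Z, γ0, α, q', m, e1, e2, e3⟩ := h
  refine ⟨Z, γ0 ++ γ, α, q', m, ?_, e2, ?_⟩
  · simp only [e1, List.cons_append]
  · rw [e3]; simp only [List.append_assoc]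

theorem reach_lift {M : PDA A} {c c' : Config M} (h : M.Reach c c') (γ : List M.G) :
    M.Reach ⟨c.state, c.stack ++ γ, c.rest⟩ ⟨c'.state, c'.stack ++ γ, c'.rest⟩ :=
  ReflTransGen.lift (fun c : Config M => (⟨c.state, c.stack ++ γ, c.rest⟩ : Config M))
    (fun _ _ h => step_lift h γ) _ _ h

theorem suffix {M : PDA A} {c c' : Config M} (h : M.Reach c c') :
    ∃ u, c.rest = u ++ c'.rest ∧ ∀ y'', y''.head? = c'.rest.head? →
      M.Reach ⟨c.state, c.stack, u ++ y''⟩ ⟨c'.state, c'.stack, y''⟩ := by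
  unfold PDA.Reach at h
  induction h using ReflTransGen.head_induction_on with
  | refl => exact ⟨[], rfl, fun y _ => ReflTransGen.refl⟩
  | @head c0 c1 hs hr ih =>
    obtain ⟨u1, e, hu⟩ := ih
    obtain ⟨Z, γ0, α, q', m, e1, e2, e3⟩ := hs
    subst e3
    cases m with
    | false =>
      have e' : c0.rest = u1 ++ c'.rest := by simpa using e
      refine ⟨u1, e', fun y'' hy => ?_⟩
      refine ReflTransGen.head ⟨Z, γ0, α, q', false, e1, ?_, rfl⟩ (hu y'' hy)
      have h1 : (u1 ++ y'').head? = c0.rest.head? := by rw [e']; exact head_app hy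
      rw [h1]; exact e2
    | true =>
      have e' : c0.rest.tail = u1 ++ c'.rest := by simpa using e
      cases hc : c0.rest with
      | nil =>
        rw [hc] at e'
        have h1 := List.append_eq_nil_iff.1 e'.symm
        refine ⟨[], by rw [h1.2]; rfl, fun y'' hy => ?_⟩
        have hy0 : y'' = [] := by
          rw [h1.2] at hy
          exact List.head?_eq_none_iff.1 hy
        subst hy0
        have h2 := hu [] hy
        rw [h1.1] at h2
        refine ReflTransGen.head ⟨Z, γ0, α, q', true, e1, ?_, rfl⟩ h2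
        rw [hc] at e2; exact e2
      | cons a t =>
        rw [hc] at e'
        have e'' : t = u1 ++ c'.rest := e'
        refine ⟨a :: u1, by rw [e'']; rfl, fun y'' hy => ?_⟩
        refine ReflTransGen.head ⟨Z, γ0, α, q', true, e1, ?_, rfl⟩ (hu y'' hy)
        rw [hc] at e2; exact e2

theorem split {M : PDA A} {c0 c : Config M} (γ : List M.G) (h : M.Reach c0 c) :
    ∀ σ, c0.stack = σ ++ γ →
      (∃ σ', c.stack = σ' ++ γ ∧ M.Reach ⟨c0.state, σ, c0.rest⟩ ⟨c.state, σ', c.rest⟩) ∨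
      ∃ r y', M.Reach ⟨c0.state, σ, c0.rest⟩ ⟨r, [], y'⟩ ∧ M.Reach ⟨r, γ, y'⟩ c := by
  unfold PDA.Reach at h
  induction h using ReflTransGen.head_induction_on with
  | refl => exact fun σ hσ => Or.inl ⟨σ, hσ, ReflTransGen.refl⟩
  | @head c0 c1 hs hr ih =>
    intro σ hσ
    cases σ with
    | nil =>
      right
      refine ⟨c0.state, c0.rest, ReflTransGen.refl, ?_⟩
      have : (⟨c0.state, γ, c0.rest⟩ : Config M) = c0 := by
        cases c0; simp only [List.nil_append] at hσ; rw [hσ]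
      rw [this]
      exact ReflTransGen.head hs hr
    | cons Z σ1 =>
      obtain ⟨Z', γ0, α, q', m, e1, e2, e3⟩ := hs
      rw [hσ, List.cons_append] at e1
      obtain ⟨hZ, hγ⟩ := List.cons.inj e1
      subst hZ
      subst hγ
      subst e3
      have hst : M.Step ⟨c0.state, Z :: σ1, c0.rest⟩
          ⟨q', α ++ σ1, if m then c0.rest.tail else c0.rest⟩ :=
        ⟨Z, σ1, α, q', m, rfl, e2, rfl⟩
      rcases ih (α ++ σ1) (by simp) with ⟨σ', h1, h2⟩ | ⟨r, y', h1, h2⟩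
      · exact Or.inl ⟨σ', h1, ReflTransGen.head hst h2⟩
      · exact Or.inr ⟨r, y', ReflTransGen.head hst h1, h2⟩

theorem expo {M : PDA A} {K : ℕ}
    (hK : ∀ q a Z q' α m, (q', α, m) ∈ M.δ q a Z → α.length ≤ K)
    {c0 c : Config M} (hσ : c0.stack.length ≤ K) (h : M.Reach c0 c) :
    K < c.stack.length → ∃ q1 Z1 β y1 γ'', β ≠ [] ∧ β.length ≤ K ∧
      M.Reach c0 ⟨q1, Z1 :: β, y1⟩ ∧ M.Reach ⟨q1, [Z1], y1⟩ ⟨c.state, γ'', c.rest⟩ ∧
      c.stack = γ'' ++ β := by
  unfold PDA.Reach at h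
  induction h with
  | refl => intro h1; omega
  | @tail c'' c hr hs ih =>
    intro hc
    obtain ⟨Z, γ0, α, q', m, e1, e2, e3⟩ := hs
    by_cases hk : K < c''.stack.length
    · obtain ⟨q1, Z1, β, y1, g, hβ, hβK, h1, h2, h3⟩ := ih hk
      cases g with
      | nil =>
        rw [List.nil_append] at h3
        rw [h3] at hk; omega
      | cons Z' g =>
        rw [h3, List.cons_append] at e1
        obtain ⟨hZ, hγ⟩ := List.cons.inj e1
        subst hZ
        subst hγ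
        subst e3
        refine ⟨q1, Z1, β, y1, α ++ g, hβ, hβK, h1, ?_, by simp⟩
        exact ReflTransGen.tail h2 ⟨Z', g, α, q', m, rfl, e2, rfl⟩
    · subst e3
      refine ⟨c''.state, Z, γ0, c''.rest, α, ?_, ?_, ?_, ?_, rfl⟩
      · rintro rfl
        have := hK _ _ _ _ _ _ e2
        simp only [List.append_nil] at hc
        omega
      · rw [e1] at hk
        simp only [List.length_cons] at hk
        omega
      · have : (⟨c''.state, Z :: γ0, c''.rest⟩ : Config M) = c'' := by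
          cases c''; simp only at e1; rw [e1]
        rw [this]; exact hr
      · refine ReflTransGen.single ⟨Z, [], α, q', m, rfl, e2, ?_⟩
        simp

section

variable (M : PDA A) (F : Set M.Q)

/-- good continuations -/
def Gd (γ : List M.G) : Set (M.Q × Option A) :=
  {p | ∃ y : List A, y.head? = p.2 ∧ CoReach M F ⟨p.1, γ, y⟩}

def Ph (Z : M.G) (S : Set (M.Q × Option A)) : Set (M.Q × Option A) :=
  {p | (∃ y : List A, y.head? = p.2 ∧ CoReach M F ⟨p.1, [Z], y⟩) ∨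
    ∃ (u : List A) (r : M.Q) (b : Option A), (r, b) ∈ S ∧ u.head?.or b = p.2 ∧
      ∀ y : List A, y.head? = b → M.Reach ⟨p.1, [Z], u ++ y⟩ ⟨r, [], y⟩}

theorem gd_cons (Z : M.G) (γ : List M.G) : Gd M F (Z :: γ) = Ph M F Z (Gd M F γ) := by
  ext ⟨q, a⟩
  constructor
  · rintro ⟨y, hy, c', hr, hc'⟩
    rcases split γ hr [Z] rfl with ⟨σ', h1, h2⟩ | ⟨r, y', h1, h2⟩
    · exact Or.inl ⟨y, hy, _, h2, hc'⟩
    · obtain ⟨u, e, hu⟩ := suffix h1
      refine Or.inr ⟨u, r, y'.head?, ⟨y', rfl, c', h2, hc'⟩, ?_, hu⟩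
      have e' : y = u ++ y' := e
      rw [← head_or, ← e']; exact hy
  · rintro (⟨y, hy, c', hr, hc'⟩ | ⟨u, r, b, ⟨y, hy, c', hr, hc'⟩, hb, hu⟩)
    · exact ⟨y, hy, _, reach_lift hr γ, hc'⟩
    · refine ⟨u ++ y, ?_, c', ?_, hc'⟩
      · change (u ++ y).head? = a
        rw [head_or, hy]; exact hb
      · exact ReflTransGen.trans (reach_lift (hu y hy) γ) hr

theorem gd_app (β γ : List M.G) : Gd M F (β ++ γ) = β.foldr (Ph M F) (Gd M F γ) := by
  induction β with
  | nil => rfl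
  | cons Z β ih => rw [List.cons_append, gd_cons, ih, List.foldr_cons]

theorem gd_short [Finite A] : ∃ C1 : ℕ, ∀ (γ : List M.G) (q : M.Q) (a : Option A),
    (q, a) ∈ Gd M F γ → ∃ y : List A, y.head? = a ∧ y.length ≤ C1 * (γ.length + 1) ∧
      CoReach M F ⟨q, γ, y⟩ := by
  have := M.finQ
  have := M.finG
  obtain ⟨c1, h1⟩ := unif (T := M.Q × M.G × Option A) (L := List A) List.length
    (fun t y => y.head? = t.2.2 ∧ CoReach M F ⟨t.1, [t.2.1], y⟩)
  obtain ⟨c2, h2⟩ := unif (T := M.Q × M.G × Option A × M.Q × Option A) (L := List A) List.length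
    (fun t u => u.head?.or t.2.2.2.2 = t.2.2.1 ∧ ∀ y : List A, y.head? = t.2.2.2.2 →
      M.Reach ⟨t.1, [t.2.1], u ++ y⟩ ⟨t.2.2.2.1, [], y⟩)
  refine ⟨c1 + c2 + 1, fun γ => ?_⟩
  induction γ with
  | nil =>
    rintro q a ⟨y, hy, c', hr, hc'⟩
    have hc : c' = ⟨q, [], y⟩ := by
      rcases ReflTransGen.cases_head hr with h | ⟨c1, hs, _⟩
      · exact h.symm
      · obtain ⟨Z, γ0, α, q', m, e1, e2, e3⟩ := hs
        simp at e1
    refine ⟨a.toList, ?_, ?_, ⟨q, [], a.toList⟩, ReflTransGen.refl, ?_⟩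
    · cases a <;> rfl
    · cases a <;> simp
    · rw [hc] at hc'; exact hc'
  | cons Z γ ih =>
    intro q a hqa
    rw [gd_cons] at hqa
    rcases hqa with h | ⟨u, r, b, hrb, hb, hu⟩
    · obtain ⟨y, hlen, hy, c', hr, hc'⟩ := h1 (q, Z, a) h
      refine ⟨y, hy, ?_, _, reach_lift hr γ, hc'⟩
      rw [List.length_cons]
      nlinarith
    · obtain ⟨u', hlen, hb', hu'⟩ := h2 (q, Z, a, r, b) ⟨u, hb, hu⟩
      obtain ⟨y, hy, hylen, c', hr, hc'⟩ := ih r b hrb
      refine ⟨u' ++ y, ?_, ?_, c', ?_, hc'⟩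
      · rw [head_or, hy]; exact hb'
      · rw [List.length_append, List.length_cons]
        nlinarith
      · exact ReflTransGen.trans (reach_lift (hu' y hy) γ) hr

/-- the types -/
abbrev Ty : Type := M.Q × M.G × Option A × Set (M.Q × Option A)

def EdgeW (p p' : Ty M) (w : List A × List M.G) : Prop :=
  w.2 ≠ [] ∧ w.1.head?.or p'.2.2.1 = p.2.2.1 ∧
    p'.2.2.2 = w.2.foldr (Ph M F) p.2.2.2 ∧ ∀ y : List A, y.head? = p'.2.2.1 →
      M.Reach ⟨p.1, [p.2.1], w.1 ++ y⟩ ⟨p'.1, p'.2.1 :: w.2, y⟩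

def Asc : ℕ → Ty M → Prop
  | 0, p => (p.1, p.2.2.1) ∈ Ph M F p.2.1 p.2.2.2
  | m + 1, p => ∃ p', (∃ w, EdgeW M F p p' w) ∧ Asc m p'

variable {M F}

theorem chain {K : ℕ} (hK1 : 1 ≤ K)
    (hK : ∀ q a Z q' α m, (q', α, m) ∈ M.δ q a Z → α.length ≤ K) (m : ℕ) :
    ∀ (q : M.Q) (Z : M.G) (y : List A) (γ : List M.G) (c : Config M),
      M.Reach ⟨q, [Z], y⟩ c → m * K < c.stack.length →
      (c.state, c.rest.head?) ∈ Gd M F (c.stack ++ γ) → Asc M F m (q, Z, y.head?, Gd M F γ) := by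
  induction m with
  | zero =>
    intro q Z y γ c hr hlen hg
    change (q, y.head?) ∈ Ph M F Z (Gd M F γ)
    rw [← gd_cons]
    obtain ⟨y'', hy'', c', hr', hc'⟩ := hg
    obtain ⟨u, e, hu⟩ := suffix hr
    have e' : y = u ++ c.rest := e
    refine ⟨u ++ y'', ?_, c', ?_, hc'⟩
    · change (u ++ y'').head? = y.head?
      rw [e']; exact head_app hy''
    · exact ReflTransGen.trans (reach_lift (hu y'' hy'') γ) hr'
  | succ m ih =>
    intro q Z y γ c hr hlen hg
    have hKc : K < c.stack.length := by nlinarith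
    obtain ⟨q1, Z1, β, y1, g, hβ, hβK, h1, h2, h3⟩ := expo hK (by simpa using hK1) hr hKc
    have hlen2 : m * K < g.length := by
      rw [h3, List.length_append] at hlen
      nlinarith
    have h4 := ih q1 Z1 y1 (β ++ γ) ⟨c.state, g, c.rest⟩ h2 hlen2 (by
      change (c.state, c.rest.head?) ∈ Gd M F (g ++ (β ++ γ))
      rw [← List.append_assoc, ← h3]; exact hg)
    obtain ⟨u, e, hu⟩ := suffix h1
    have e' : y = u ++ y1 := e
    refine ⟨(q1, Z1, y1.head?, Gd M F (β ++ γ)), ⟨(u, β), hβ, ?_, ?_, hu⟩, h4⟩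
    · change u.head?.or y1.head? = y.head?
      rw [← head_or, ← e']
    · change Gd M F (β ++ γ) = β.foldr (Ph M F) (Gd M F γ)
      exact gd_app M F β γ

theorem real {C2 : ℕ}
    (hC2 : ∀ p p' : Ty M, (∃ w, EdgeW M F p p' w) →
      ∃ w, w.1.length + w.2.length ≤ C2 ∧ EdgeW M F p p' w) (m : ℕ) :
    ∀ p : Ty M, Asc M F m p → ∃ (u : List A) (σ : List M.G) (q' : M.Q) (Z' : M.G) (a' : Option A),
      u.length ≤ C2 * m ∧ m ≤ σ.length ∧ σ.length ≤ C2 * m ∧ u.head?.or a' = p.2.2.1 ∧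
      (q', a') ∈ Ph M F Z' (σ.foldr (Ph M F) p.2.2.2) ∧
      ∀ y : List A, y.head? = a' → M.Reach ⟨p.1, [p.2.1], u ++ y⟩ ⟨q', Z' :: σ, y⟩ := by
  induction m with
  | zero =>
    rintro ⟨q, Z, a, S⟩ h
    exact ⟨[], [], q, Z, a, by simp, le_rfl, by simp, rfl, h, fun y _ => ReflTransGen.refl⟩
  | succ m ih =>
    rintro p ⟨p1, hw, h1⟩
    obtain ⟨⟨u1, β⟩, hlen, hβ, ha, hS, hr⟩ := hC2 p p1 hw
    obtain ⟨u2, σ2, q', Z', a', e1, e2, e3, e4, e5, e6⟩ := ih p1 h1
    simp only at hlen hβ ha hS hr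
    have hβ1 : 1 ≤ β.length := List.length_pos_of_ne_nil hβ
    refine ⟨u1 ++ u2, σ2 ++ β, q', Z', a', ?_, ?_, ?_, ?_, ?_, ?_⟩
    · rw [List.length_append]; nlinarith
    · rw [List.length_append]; omega
    · rw [List.length_append]; nlinarith
    · rw [head_or, Option.or_assoc, e4]; exact ha
    · rw [List.foldr_append, ← hS]; exact e5
    · intro y hy
      have h2 := hr (u2 ++ y) (by rw [head_or, hy]; exact e4)
      have h3 := reach_lift (e6 y hy) β
      rw [List.append_assoc]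
      exact ReflTransGen.trans h2 h3

end

end Lin

open Lin in
/-- Piece PD1. -/
theorem stmLinear : StmLinear := by
  intro A _ M F s hs ho
  have := M.finQ
  have := M.finG
  -- the bound on the pushed words
  obtain ⟨K, hK1, hK⟩ : ∃ K : ℕ, 1 ≤ K ∧
      ∀ q a Z q' α m, (q', α, m) ∈ M.δ q a Z → α.length ≤ K := by
    let f : M.Q × Option A × M.G → ℕ := fun t =>
      ((M.δ t.1 t.2.1 t.2.2).map fun x => x.2.1.length).sum
    obtain ⟨C, hC⟩ := (Set.finite_range f).bddAbove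
    refine ⟨C + 1, by omega, fun q a Z q' α m h => ?_⟩
    have h1 : α.length ≤ f (q, a, Z) := by
      apply List.le_sum_of_mem
      exact List.mem_map.2 ⟨(q', α, m), h, rfl⟩
    have h2 : f (q, a, Z) ≤ C := hC ⟨_, rfl⟩
    omega
  obtain ⟨C1, hC1⟩ := gd_short M F
  obtain ⟨C2, hC2⟩ := unif (T := Ty M × Ty M) (L := List A × List M.G)
    (fun w => w.1.length + w.2.length) (fun t w => EdgeW M F t.1 t.2 w)
  by_contra hcon
  push Not at hcon
  have key : ∀ m : ℕ, ∃ w : List A, w.length ≤ (C2 + C1 * (C2 + 2)) * (m + 1) ∧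
      (m : ℝ) ≤ s w.length := by
    intro m
    obtain ⟨w, c, hr, hco, hlen⟩ := hcon (m * K)
    have hg : (c.state, c.rest.head?) ∈ Gd M F (c.stack ++ []) := by
      rw [List.append_nil]
      exact ⟨c.rest, rfl, hco⟩
    have h1 := chain (F := F) hK1 hK m M.start M.bottom w [] c hr hlen hg
    obtain ⟨u, σ, q', Z', a', e1, e2, e3, e4, e5, e6⟩ :=
      real (fun p p' h => hC2 (p, p') h) m _ h1
    have h2 : (q', a') ∈ Gd M F (Z' :: σ) := by
      rw [gd_cons]
      have := gd_app M F σ []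
      rw [List.append_nil] at this
      rw [this]; exact e5
    obtain ⟨y, hy, hylen, hyco⟩ := hC1 _ _ _ h2
    have hreach : M.Reach (M.init (u ++ y)) ⟨q', Z' :: σ, y⟩ := e6 y hy
    have hco' : CoReach M F (M.init (u ++ y)) := by
      obtain ⟨c', h3, h4⟩ := hyco
      exact ⟨c', ReflTransGen.trans hreach h3, h4⟩
    refine ⟨u ++ y, ?_, ?_⟩
    · rw [List.length_append]
      rw [List.length_cons] at hylen
      nlinarith
    · refine le_trans ?_ (hs _ hco' _ hreach)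
      simp only [List.length_cons]
      exact_mod_cast (by omega : m ≤ σ.length + 1)
  -- contradiction with `s = o(n)`
  obtain ⟨C3, hC3⟩ : ∃ C3 : ℕ, C3 = C2 + C1 * (C2 + 2) + 1 := ⟨_, rfl⟩
  have hC3pos : (0 : ℝ) < C3 := by rw [hC3]; positivity
  have ho' := ho.def (show (0 : ℝ) < 1 / (2 * C3) by positivity)
  obtain ⟨N, hN⟩ := Filter.eventually_atTop.1 ho'
  obtain ⟨S0, hS0⟩ : ∃ S0 : ℝ, ∀ n < N, s n ≤ S0 := by
    obtain ⟨S0, h⟩ := ((Set.finite_lt_nat N).image s).bddAbove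
    exact ⟨S0, fun n hn => h ⟨n, hn, rfl⟩⟩
  obtain ⟨m, hm⟩ := exists_nat_gt (max S0 2)
  obtain ⟨w, hw1, hw2⟩ := key m
  have hmS : S0 < m := lt_of_le_of_lt (le_max_left _ _) hm
  have hm2 : (2 : ℝ) < m := lt_of_le_of_lt (le_max_right _ _) hm
  by_cases hwN : w.length < N
  · have := hS0 _ hwN
    linarith
  · push Not at hwN
    have h1 := hN _ hwN
    rw [Real.norm_eq_abs, Real.norm_eq_abs, abs_of_nonneg (Nat.cast_nonneg (α := ℝ) w.length)] at h1
    have h2 : s w.length ≤ 1 / (2 * C3) * w.length := (le_abs_self _).trans h1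
    have h3 : (w.length : ℝ) ≤ C3 * (m + 1) := by
      have : w.length ≤ C3 * (m + 1) := by rw [hC3]; nlinarith
      exact_mod_cast this
    have h4 : 1 / (2 * (C3 : ℝ)) * w.length ≤ 1 / (2 * C3) * (C3 * (m + 1)) :=
      mul_le_mul_of_nonneg_left h3 (by positivity)
    have h5 : 1 / (2 * (C3 : ℝ)) * (C3 * (m + 1)) = (m + 1) / 2 := by
      field_simp
    rw [h5] at h4
    linarith

end Agent.R572.PD
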