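import Pool.Agent.R572.PD.Stm

/-! PD3: the `log log n` lower bound for one-way alternating pushdown automata. -/

namespace Agent.R572.PD

open Relation Asymptotics Filter

variable {A : Type} {M : PDA A}

namespace LL

lemma accB_height {B : ℕ} {c : Config M} (h : AccB M B c) : c.stack.length ≤ B := by
  cases h with
  | final _ h _ => exact h
  | exist _ _ h _ _ _ => exact h
  | univ _ h _ _ _ => exact h

lemma accB_mono {B B' : ℕ} (hB : B ≤ B') {c : Config M} (h : AccB M B c) : AccB M B' c := by
  induction h with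
  | final c h1 h2 => exact AccB.final c (h1.trans hB) h2
  | exist c c' h1 h2 h3 _ ih => exact AccB.exist c c' (h1.trans hB) h2 h3 ih
  | univ c h1 h2 h3 _ ih => exact AccB.univ c (h1.trans hB) h2 h3 ih

lemma accB_acc {B : ℕ} {c : Config M} (h : AccB M B c) : M.Acc c := by
  induction h with
  | final c _ h2 => exact PDA.Acc.final c h2
  | exist c c' _ h2 h3 _ ih => exact PDA.Acc.exist c c' h2 h3 ih
  | univ c _ h2 h3 _ ih => exact PDA.Acc.univ c h2 h3 ih

lemma acc_accB {B : ℕ} {c : Config M} (h : M.Acc c) :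
    (∀ c', M.Reach c c' → c'.stack.length ≤ B) → AccB M B c := by
  induction h with
  | final c h2 => exact fun hr => AccB.final c (hr c ReflTransGen.refl) h2
  | exist c c' h2 h3 _ ih =>
    exact fun hr => AccB.exist c c' (hr c ReflTransGen.refl) h2 h3
      (ih fun c'' h'' => hr c'' (ReflTransGen.head h3 h''))
  | univ c h2 h3 _ ih =>
    exact fun hr => AccB.univ c (hr c ReflTransGen.refl) h2 h3
      (fun c' h' => ih c' h' fun c'' h'' => hr c'' (ReflTransGen.head h' h''))

/-- The accepted pairs (state, store) in front of the unread input `v`. -/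
def AS (M : PDA A) (B : ℕ) (v : List A) : Set (M.Q × List M.G) := {p | AccB M B ⟨p.1, p.2, v⟩}

lemma key_aux {B : ℕ} {v v' : List A} (a : A) (hv : AS M B v ⊆ AS M B v') {c : Config M}
    (h : AccB M B c) : c.rest = a :: v → AccB M B ⟨c.state, c.stack, a :: v'⟩ := by
  induction h with
  | final c h1 h2 => exact fun _ => AccB.final _ h1 h2
  | exist c c' h1 h2 h3 h4 ih =>
    intro hr
    obtain ⟨Z, γ, α, q', m, hs, hm, hc⟩ := h3
    rw [hr] at hm hc
    refine AccB.exist _ ⟨q', α ++ γ, if m then v' else a :: v'⟩ h1 h2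
      ⟨Z, γ, α, q', m, hs, hm, by simp⟩ ?_
    cases m with
    | true =>
      simp only [if_true, List.tail_cons] at hc ⊢
      subst hc
      exact hv (show (q', α ++ γ) ∈ AS M B v from h4)
    | false =>
      simp only [Bool.false_eq_true, if_false] at hc ⊢
      subst hc
      exact ih rfl
  | univ c h1 h2 h3 h4 ih =>
    intro hr
    refine AccB.univ _ h1 h2 ?_ ?_
    · obtain ⟨c', Z, γ, α, q', m, hs, hm, hc⟩ := h3
      rw [hr] at hm hc
      exact ⟨⟨q', α ++ γ, if m then v' else a :: v'⟩, Z, γ, α, q', m, hs, hm, by simp⟩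
    · rintro c2 ⟨Z, γ, α, q', m, hs, hm, hc⟩
      simp only [List.head?_cons, List.tail_cons] at hm hc
      have hstep : M.Step c ⟨q', α ++ γ, if m then v else a :: v⟩ :=
        ⟨Z, γ, α, q', m, hs, by rw [hr]; exact hm, by rw [hr]; simp⟩
      have h5 := h4 _ hstep
      have h6 := ih _ hstep
      cases m with
      | true =>
        simp only [if_true] at hc h5
        subst hc
        exact hv (show (q', α ++ γ) ∈ AS M B v from h5)
      | false =>
        simp only [Bool.false_eq_true, if_false] at hc h6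
        subst hc
        exact h6 trivial

lemma key_cons {B : ℕ} {v v' : List A} (a : A) (hv : AS M B v = AS M B v') :
    AS M B (a :: v) = AS M B (a :: v') := by
  apply Set.Subset.antisymm
  · rintro ⟨q, σ⟩ h
    exact key_aux a hv.le h rfl
  · rintro ⟨q, σ⟩ h
    exact key_aux a hv.ge h rfl

lemma key_append {B : ℕ} {v v' : List A} (x : List A) (hv : AS M B v = AS M B v') :
    AS M B (x ++ v) = AS M B (x ++ v') := by
  induction x with
  | nil => exact hv
  | cons a x ih => exact key_cons a ih

lemma key_init {B : ℕ} {v v' : List A} (x : List A) (hv : AS M B v = AS M B v') :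
    AccB M B (M.init (x ++ v)) ↔ AccB M B (M.init (x ++ v')) := by
  have h := key_append x hv
  have h2 : (M.start, [M.bottom]) ∈ AS M B (x ++ v) ↔ (M.start, [M.bottom]) ∈ AS M B (x ++ v') := by
    rw [h]
  exact h2

/-- encoding of stores of bounded height -/
def enc {G : Type} (k : ℕ) (γ : List G) : Fin k → Option G := fun i => γ[(i : ℕ)]?

lemma enc_inj {G : Type} {k : ℕ} {γ γ' : List G} (h : γ.length ≤ k) (h' : γ'.length ≤ k)
    (he : enc k γ = enc k γ') : γ = γ' := by
  apply List.ext_getElem?
  intro i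
  by_cases hi : i < k
  · exact congrFun he ⟨i, hi⟩
  · rw [List.getElem?_eq_none (by omega), List.getElem?_eq_none (by omega)]

/-- the encoded set -/
def ES (M : PDA A) (B : ℕ) (v : List A) : Set (M.Q × (Fin B → Option M.G)) :=
  (fun p : M.Q × List M.G => (p.1, enc B p.2)) '' AS M B v

lemma ES_inj {B : ℕ} {v v' : List A} (h : ES M B v = ES M B v') : AS M B v = AS M B v' := by
  have key : ∀ v v' : List A, ES M B v = ES M B v' → AS M B v ⊆ AS M B v' := by
    rintro v v' h ⟨q, σ⟩ hp
    have h1 : (q, enc B σ) ∈ ES M B v' := by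
      rw [← h]; exact ⟨(q, σ), hp, rfl⟩
    obtain ⟨⟨q', σ'⟩, hp', he⟩ := h1
    simp only [Prod.mk.injEq] at he
    obtain ⟨rfl, he⟩ := he
    have h3 : σ' = σ := enc_inj (accB_height hp') (accB_height hp) he
    rw [← h3]
    exact hp'
  exact Set.Subset.antisymm (key v v' h) (key v' v h.symm)

/-- the number of sets -/
lemma card_bound (M : PDA A) (B : ℕ) :
    Nat.card (Set (M.Q × (Fin B → Option M.G))) =
      2 ^ (Nat.card M.Q * (Nat.card M.G + 1) ^ B) := by
  classical
  haveI := M.finQ
  haveI := M.finG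
  haveI := Fintype.ofFinite M.Q
  haveI := Fintype.ofFinite M.G
  rw [Nat.card_eq_fintype_card, Fintype.card_set, Fintype.card_prod, Fintype.card_fun,
    Fintype.card_option, Fintype.card_fin, Nat.card_eq_fintype_card, Nat.card_eq_fintype_card]

/-- a shortest word in the difference is short -/
lemma short {k n : ℕ} {w : List A} (hn : w.length = n) (h1 : AccB M (k + 1) (M.init w))
    (h2 : ¬ AccB M k (M.init w))
    (hmin : ∀ w' : List A, w'.length < n → AccB M (k + 1) (M.init w') → AccB M k (M.init w')) :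
    n + 1 ≤ 2 ^ (Nat.card M.Q * (Nat.card M.G + 1) ^ k) *
      2 ^ (Nat.card M.Q * (Nat.card M.G + 1) ^ (k + 1)) := by
  classical
  haveI := M.finQ
  haveI := M.finG
  let f : Fin (n + 1) → Set (M.Q × (Fin k → Option M.G)) × Set (M.Q × (Fin (k + 1) → Option M.G)) :=
    fun i => (ES M k (w.drop i), ES M (k + 1) (w.drop i))
  have hcut : ∀ i j : ℕ, i < j → j ≤ n → ES M k (w.drop i) = ES M k (w.drop j) →
      ES M (k + 1) (w.drop i) = ES M (k + 1) (w.drop j) → False := by
    intro i j hij hj e1 e2
    have h3 := key_init (w.take i) (ES_inj e1)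
    have h4 := key_init (w.take i) (ES_inj e2)
    rw [List.take_append_drop] at h3 h4
    apply h2
    rw [h3]
    apply hmin
    · rw [List.length_append, List.length_take, List.length_drop, hn]
      omega
    · exact h4.mp h1
  have hf : Function.Injective f := by
    intro i j hij
    simp only [f, Prod.mk.injEq] at hij
    rcases lt_trichotomy (i : ℕ) (j : ℕ) with h | h | h
    · exact (hcut i j h (by omega) hij.1 hij.2).elim
    · exact Fin.ext h
    · exact (hcut j i h (by omega) hij.1.symm hij.2.symm).elim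
  have h5 := Nat.card_le_card_of_injective f hf
  rw [Nat.card_prod, card_bound, card_bound, Nat.card_eq_fintype_card, Fintype.card_fin] at h5
  exact h5

lemma loglog_bound (q g : ℕ) : ∃ C : ℝ, 0 < C ∧ ∀ k n : ℕ, 3 ≤ n →
    n + 1 ≤ 2 ^ (q * (g + 1) ^ k) * 2 ^ (q * (g + 1) ^ (k + 1)) →
    Real.log (Real.log n) ≤ C * (k + 1) := by
  have hq0 : (0 : ℝ) ≤ q := Nat.cast_nonneg _
  have hg0 : (0 : ℝ) ≤ g := Nat.cast_nonneg _
  have hg1 : 0 ≤ Real.log ((g : ℝ) + 1) := Real.log_nonneg (by linarith)
  have hq1 : 0 ≤ Real.log (2 * (q : ℝ) + 1) := Real.log_nonneg (by linarith)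
  refine ⟨Real.log (2 * q + 1) + Real.log (g + 1) + 1, by linarith, ?_⟩
  intro k n hn h
  have h0 : (n : ℝ) ≤ 2 ^ (2 * q * (g + 1) ^ (k + 1)) := by
    have h1 : n ≤ 2 ^ (2 * q * (g + 1) ^ (k + 1)) := by
      calc n ≤ n + 1 := Nat.le_succ n
        _ ≤ 2 ^ (q * (g + 1) ^ k) * 2 ^ (q * (g + 1) ^ (k + 1)) := h
        _ ≤ 2 ^ (q * (g + 1) ^ (k + 1)) * 2 ^ (q * (g + 1) ^ (k + 1)) := by
            apply Nat.mul_le_mul_right
            apply Nat.pow_le_pow_right (by norm_num)
            apply Nat.mul_le_mul_left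
            exact Nat.pow_le_pow_right (by omega) (by omega)
        _ = 2 ^ (2 * q * (g + 1) ^ (k + 1)) := by
            rw [← pow_add]; congr 1; ring
    exact_mod_cast h1
  have hn' : (3 : ℝ) ≤ n := by exact_mod_cast hn
  have hn0 : (0 : ℝ) < n := by linarith
  have hlog1 : 1 < Real.log n := by
    rw [Real.lt_log_iff_exp_lt hn0]
    exact lt_of_lt_of_le (Real.exp_one_lt_d9.trans (by norm_num)) hn'
  have h2 : Real.log n ≤ (2 * q * (g + 1) ^ (k + 1) : ℝ) := by
    have h3 := Real.log_le_log hn0 h0
    rw [Real.log_pow] at h3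
    have hl2 : Real.log 2 ≤ 1 := by
      have := Real.log_two_lt_d9
      linarith
    refine h3.trans ?_
    push_cast
    have h4 : (0 : ℝ) ≤ 2 * q * (g + 1) ^ (k + 1) := by positivity
    nlinarith
  have h5 : Real.log n ≤ (2 * q + 1) * ((g : ℝ) + 1) ^ (k + 1) := by
    refine h2.trans ?_
    have : (0 : ℝ) ≤ ((g : ℝ) + 1) ^ (k + 1) := by positivity
    nlinarith
  have h6 := Real.log_le_log (by linarith) h5
  rw [Real.log_mul (by positivity) (by positivity), Real.log_pow] at h6
  push_cast at h6
  have hk : (1 : ℝ) ≤ (k : ℝ) + 1 := by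
    have : (0 : ℝ) ≤ k := Nat.cast_nonneg _
    linarith
  nlinarith

/-- the languages `L_B` -/
def LB (M : PDA A) (B : ℕ) : Language A := {w | AccB M B (M.init w)}

lemma LB_mono {B B' : ℕ} (h : B ≤ B') : LB M B ≤ LB M B' := fun _ hw => accB_mono h hw

lemma mem_LB_of {s : ℕ → ℝ} (hs : M.MiddleBound s) {w : List A} (hw : w ∈ M.language) {B : ℕ}
    (hB : s w.length < B + 1) : w ∈ LB M B := by
  apply acc_accB hw
  intro c' hc'
  have h1 := hs w hw c' hc'
  have h2 : (c'.stack.length : ℝ) < B + 1 := lt_of_le_of_lt h1 hB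
  have h3 : c'.stack.length < B + 1 := by exact_mod_cast h2
  omega

end LL

open LL in
/-- PD3 from PD2. -/
theorem stmLogLog_of_bdd (hBdd : StmBdd) : StmLogLog := by
  intro A _ M s hs ho
  by_contra hreg
  -- infinitely many strict steps
  have hinf : ∀ K : ℕ, ∃ k, K ≤ k ∧ LB M k ≠ LB M (k + 1) := by
    intro K
    by_contra hcon
    push Not at hcon
    have hconst : ∀ j, LB M (K + j) = LB M K := by
      intro j
      induction j with
      | zero => rfl
      | succ j ih => rw [← ih]; exact (hcon (K + j) (by omega)).symm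
    apply hreg
    have hL : M.language = LB M K := by
      apply Set.Subset.antisymm
      · intro w hw
        obtain ⟨B, hB⟩ := exists_nat_gt (s w.length)
        have h1 : w ∈ LB M (K + B) := by
          apply mem_LB_of hs hw
          push_cast
          have : (0 : ℝ) ≤ K := Nat.cast_nonneg _
          linarith
        rw [hconst B] at h1
        exact h1
      · intro w hw
        exact accB_acc hw
    rw [hL]
    exact hBdd A M K
  obtain ⟨C, hC, hCb⟩ := loglog_bound (Nat.card M.Q) (Nat.card M.G)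
  have ho' := ho.def (show (0 : ℝ) < 1 / (2 * C) by positivity)
  rw [eventually_atTop] at ho'
  obtain ⟨n₀, hn₀⟩ := ho'
  -- a bound of `s` below `n₀`
  obtain ⟨S, hS⟩ : ∃ S : ℕ, ∀ n, n < max n₀ 3 → s n ≤ S := by
    obtain ⟨S, hS⟩ := exists_nat_ge (∑ n ∈ Finset.range (max n₀ 3), |s n|)
    refine ⟨S, fun n hn => le_trans (le_trans (le_abs_self _) ?_) hS⟩
    exact Finset.single_le_sum (f := fun n => |s n|) (fun i _ => abs_nonneg _)
      (Finset.mem_range.mpr hn)
  obtain ⟨k, hk, hne⟩ := hinf S
  -- a shortest word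
  have hex : ∃ n : ℕ, ∃ w : List A, w.length = n ∧ w ∈ LB M (k + 1) ∧ w ∉ LB M k := by
    by_contra hcon
    push Not at hcon
    apply hne
    apply Set.Subset.antisymm
    · exact LB_mono (Nat.le_succ k)
    · intro w hw
      exact hcon w.length w rfl hw
  classical
  obtain ⟨w, hwn, hw1, hw2⟩ := Nat.find_spec hex
  have hmin : ∀ w' : List A, w'.length < Nat.find hex → AccB M (k + 1) (M.init w') →
      AccB M k (M.init w') := by
    intro w' hw' h
    by_contra h2
    exact Nat.find_min hex hw' ⟨w', rfl, h, h2⟩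
  have hshort := short hwn hw1 hw2 hmin
  set n := Nat.find hex with hn
  -- the space bound is large
  have hsn : (k : ℝ) + 1 ≤ s n := by
    by_contra hlt
    push Not at hlt
    apply hw2
    apply mem_LB_of hs (accB_acc hw1)
    rw [hwn]
    exact hlt
  have hnlarge : max n₀ 3 ≤ n := by
    by_contra hlt
    push Not at hlt
    have h1 := hS n hlt
    have h2 : (S : ℝ) ≤ k := by exact_mod_cast hk
    linarith
  have h3 := hn₀ n ((le_max_left _ _).trans hnlarge)
  have hn3 : 3 ≤ n := (le_max_right _ _).trans hnlarge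
  have h4 := hCb k n hn3 hshort
  have hn' : (3 : ℝ) ≤ n := by exact_mod_cast hn3
  have hn0 : (0 : ℝ) < n := by linarith
  have hlog1 : 1 < Real.log n := by
    rw [Real.lt_log_iff_exp_lt hn0]
    exact lt_of_lt_of_le (Real.exp_one_lt_d9.trans (by norm_num)) hn'
  have hll : 0 ≤ Real.log (Real.log n) := Real.log_nonneg hlog1.le
  rw [Real.norm_eq_abs, Real.norm_eq_abs, abs_of_nonneg hll] at h3
  have h5 : s n ≤ 1 / (2 * C) * (C * (k + 1)) := by
    refine (le_abs_self _).trans (h3.trans ?_)
    exact mul_le_mul_of_nonneg_left h4 (by positivity)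
  have h6 : 1 / (2 * C) * (C * ((k : ℝ) + 1)) = ((k : ℝ) + 1) / 2 := by
    field_simp
  rw [h6] at h5
  have hk0 : (0 : ℝ) ≤ k := Nat.cast_nonneg _
  linarith

end Agent.R572.PD
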