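import Pool.Agent.R572.PD.Defs

/-!
# A realtime alternating pushdown automaton for a nonregular language (MP_300f36_lc)
-/

namespace Agent.R572.PD.LL

open Relation

inductive Letter
  | H (b f : Bool)
  | Y (v : Bool)
  | X (v : Bool)
  deriving DecidableEq, Fintype

inductive St
  | s0
  | sc (ph b c g f z o : Bool)
  | r | rx
  | iy | ix | ic (c : Bool)
  | vy (e : Bool) | vx (e : Bool) | vw (e : Bool) | vn (e : Bool) | vc (e b : Bool)
  | acc
  deriving DecidableEq

/-- an injection of the state set into a finite type -/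
def St.code : St → (Bool × Bool × Bool × Bool) × (Bool × Bool × Bool) ⊕ Fin 12 × Bool × Bool
  | .sc ph b c g f z o => Sum.inl ((ph, b, c, g), (f, z, o))
  | .s0 => Sum.inr (0, false, false)
  | .r => Sum.inr (1, false, false)
  | .rx => Sum.inr (2, false, false)
  | .iy => Sum.inr (3, false, false)
  | .ix => Sum.inr (4, false, false)
  | .ic c => Sum.inr (5, c, false)
  | .vy e => Sum.inr (6, e, false)
  | .vx e => Sum.inr (7, e, false)
  | .vw e => Sum.inr (8, e, false)
  | .vn e => Sum.inr (9, e, false)
  | .vc e b => Sum.inr (10, e, b)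
  | .acc => Sum.inr (11, false, false)

theorem St.code_injective : Function.Injective St.code := by
  intro s t h
  cases s <;> cases t <;> simp [St.code] at h ⊢ <;> simp_all

instance : Finite St := Finite.of_injective _ St.code_injective

open Letter St

abbrev Γ := Option Bool

/-- the moves spawned at a header, with new carry `c`, new row-zero flag `g` -/
def spawn (b f c g : Bool) (Z : Γ) : List (St × List Γ × Bool) :=
  [(sc false b c g f true true, [Z], true), (r, [Z], true), (iy, [Z], true),
    (vy (xor b c), [Z], true)]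

/-- the moves of the waiting vertical thread at a header -/
def hdW (e b f : Bool) (Z : Γ) : List (St × List Γ × Bool) :=
  if f then [(vn e, [Z], true), (vc e b, [Z], true)] else [(vw e, [Z], true)]

def tr : St → Option Letter → Γ → List (St × List Γ × Bool)
  -- start
  | s0, some (H b f), Z => if b = false ∧ f = true then spawn false true true true Z else []
  | s0, _, _ => []
  -- scanning thread
  | sc ph b c g f z o, some (Y v), Z =>
      if ph = false then [(sc false b c g f (z && !v) (o && v), [Z], true)] else []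
  | sc _ b c g f z o, some (X _), Z => [(sc true b c g f z o, [Z], true)]
  | sc _ b c g f z _, some (H b' f'), Z =>
      if f = z ∧ ((g && !f') = true → b' = false) then
        spawn b' f' (f' || (b && c)) (g && !f') Z else []
  | sc _ b c _ f z o, none, Z =>
      if f = z ∧ b = true ∧ c = true ∧ o = true then [(acc, [Z], true)] else []
  -- thread R
  | r, some (Y v), Z => [(r, [some v, Z], true)]
  | r, some (X v), Z => if Z = some v then [(rx, [], true)] else []
  | r, _, Z => if Z = none then [(acc, [Z], true)] else []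
  | rx, some (X v), Z => if Z = some v then [(rx, [], true)] else []
  | rx, some (Y _), _ => []
  | rx, _, Z => if Z = none then [(acc, [Z], true)] else []
  -- thread I
  | iy, some (Y _), Z => [(iy, [Z], true)]
  | iy, some (X v), Z => [(ix, [some v, Z], true)]
  | iy, some (H _ _), Z => [(ic true, [Z], true)]
  | iy, none, Z => [(acc, [Z], true)]
  | ix, some (X v), Z => [(ix, [some v, Z], true)]
  | ix, some (H _ _), Z => [(ic true, [Z], true)]
  | ix, _, Z => [(acc, [Z], true)]
  | ic c, some (Y v), Z => if Z = some (xor v c) then [(ic (xor v c && c), [], true)] else []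
  | ic _, _, Z => if Z = none then [(acc, [Z], true)] else []
  -- thread V
  | vy e, some (Y _), Z => [(vy e, [Z], true)]
  | vy e, some (X v), Z => [(vx e, [some v, Z], true)]
  | vy e, some (H b f), Z => hdW e b f Z
  | vy _, none, Z => [(acc, [Z], true)]
  | vx e, some (X v), Z => [(vx e, [some v, Z], true)]
  | vx e, some (H b f), Z => hdW e b f Z
  | vx _, _, Z => [(acc, [Z], true)]
  | vw e, some (H b f), Z => hdW e b f Z
  | vw e, some _, Z => [(vw e, [Z], true)]
  | vw _, none, Z => [(acc, [Z], true)]
  | vn e, some (H b f), Z =>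
      if f then [(acc, [Z], true)] else [(vn e, [Z], true), (vc e b, [Z], true)]
  | vn e, some _, Z => [(vn e, [Z], true)]
  | vn _, none, Z => [(acc, [Z], true)]
  | vc e b, some (Y v), Z => if Z = some v then [(vc e b, [], true)] else [(acc, [Z], true)]
  | vc e b, _, Z => if Z = none ∧ b ≠ e then [] else [(acc, [Z], true)]
  | acc, _, _ => []

/-- the machine -/
def M : PDA Letter where
  Q := St
  G := Γ
  finQ := inferInstance
  finG := inferInstance
  start := s0
  bottom := none
  universal := Set.univ
  accepting := {acc}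
  δ := tr

/-- acceptance from `(s, γ, w)` -/
def A (s : St) (γ : List Γ) (w : List Letter) : Prop := M.Acc ⟨s, γ, w⟩

/-- all moves advance -/
theorem tr_true (s : St) (a : Option Letter) (Z : Γ) : ∀ mv ∈ tr s a Z, mv.2.2 = true := by
  intro mv h
  rcases s with _ | ⟨ph, b, c, g, f, z, o⟩ | _ | _ | _ | _ | c | e | e | e | e | ⟨e, b⟩ | _ <;>
  rcases a with _ | ⟨b', f'⟩ | v | v <;>
  simp only [tr, spawn, hdW] at h <;> (try split_ifs at h) <;> simp at h <;>
  (try rcases h with h | h | h | h) <;> (try rcases h with h | h) <;> simp_all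

/-- at the end-marker all moves go to `acc` -/
theorem tr_end (s : St) (Z : Γ) : ∀ mv ∈ tr s none Z, mv.1 = acc := by
  intro mv h
  rcases s with _ | ⟨ph, b, c, g, f, z, o⟩ | _ | _ | _ | _ | c | e | e | e | e | ⟨e, b⟩ | _ <;>
  simp only [tr] at h <;> (try split_ifs at h) <;> simp at h <;> (try subst h) <;>
  simp_all

theorem step_iff (s : St) (γ : List Γ) (w : List Letter) (c' : Config M) :
    M.Step ⟨s, γ, w⟩ c' ↔ ∃ Z γ', γ = Z :: γ' ∧ ∃ mv ∈ tr s w.head? Z,
      c' = ⟨mv.1, mv.2.1 ++ γ', w.tail⟩ := by
  constructor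
  · rintro ⟨Z, γ', α, q', m, h1, h2, h3⟩
    refine ⟨Z, γ', h1, (q', α, m), h2, ?_⟩
    have hm : m = true := tr_true _ _ _ _ h2
    subst hm
    exact h3
  · rintro ⟨Z, γ', h1, ⟨q', α, m⟩, h2, h3⟩
    refine ⟨Z, γ', α, q', m, h1, h2, ?_⟩
    have hm : m = true := tr_true _ _ _ _ h2
    subst hm
    exact h3

theorem A_iff (s : St) (Z : Γ) (γ : List Γ) (w : List Letter) :
    A s (Z :: γ) w ↔ s = acc ∨ (tr s w.head? Z ≠ [] ∧
      ∀ mv ∈ tr s w.head? Z, A mv.1 (mv.2.1 ++ γ) w.tail) := by
  constructor
  · intro h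
    rcases h with ⟨_, h⟩ | ⟨_, c', h, _, _⟩ | ⟨_, _, ⟨c', h1⟩, h2⟩
    · left; exact h
    · exact absurd (Set.mem_univ _) h
    · right
      obtain ⟨Z', γ', he, mv, hmv, _⟩ := (step_iff _ _ _ _).1 h1
      obtain ⟨rfl, rfl⟩ := List.cons.inj he
      refine ⟨List.ne_nil_of_mem hmv, fun mv' h' => ?_⟩
      exact h2 _ ((step_iff _ _ _ _).2 ⟨Z, γ, rfl, mv', h', rfl⟩)
  · rintro (rfl | ⟨h1, h2⟩)
    · exact PDA.Acc.final _ rfl
    · obtain ⟨mv, hmv⟩ := List.exists_mem_of_ne_nil _ h1
      refine PDA.Acc.univ _ (Set.mem_univ _) ⟨_, (step_iff _ _ _ _).2 ⟨Z, γ, rfl, mv, hmv, rfl⟩⟩ ?_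
      intro c' hc'
      obtain ⟨Z', γ', he, mv', hmv', rfl⟩ := (step_iff _ _ _ _).1 hc'
      obtain ⟨rfl, rfl⟩ := List.cons.inj he
      exact h2 _ hmv'

@[simp] theorem A_acc (γ : List Γ) (w : List Letter) : A acc γ w ↔ True :=
  ⟨fun _ => trivial, fun _ => PDA.Acc.final _ rfl⟩

/-- cells -/
structure Cell where
  b : Bool
  f : Bool
  ys : List Bool
  xs : List Bool

def cellW (c : Cell) : List Letter := H c.b c.f :: (c.ys.map Y ++ c.xs.map X)

def word : List Cell → List Letter
  | [] => []
  | c :: cs => cellW c ++ word cs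

/-! ### thread R -/

theorem A_r_Y (v : Bool) (Z : Γ) (γ : List Γ) (w : List Letter) :
    A r (Z :: γ) (Y v :: w) ↔ A r (some v :: Z :: γ) w := by
  rw [A_iff]; simp [tr]

theorem A_r_ys (ys : List Bool) (w : List Letter) : ∀ (Z : Γ) (γ : List Γ),
    A r (Z :: γ) (ys.map Y ++ w) ↔ A r (ys.reverse.map some ++ Z :: γ) w := by
  induction ys with
  | nil => intro Z γ; simp
  | cons v ys ih =>
    intro Z γ
    rw [List.map_cons, List.cons_append, A_r_Y, ih]
    simp

theorem A_rx_X (v : Bool) (Z : Γ) (γ : List Γ) (w : List Letter) :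
    A rx (Z :: γ) (X v :: w) ↔ Z = some v ∧ A rx γ w := by
  rw [A_iff]; simp only [tr, List.head?_cons, List.tail_cons]; split_ifs with h <;> simp [h]

theorem A_r_X (v : Bool) (Z : Γ) (γ : List Γ) (w : List Letter) :
    A r (Z :: γ) (X v :: w) ↔ Z = some v ∧ A rx γ w := by
  rw [A_iff]; simp only [tr, List.head?_cons, List.tail_cons]; split_ifs with h <;> simp [h]

/-- a word that is empty or starts with a header -/
def HdEnd (w : List Letter) : Prop := w = [] ∨ ∃ b f w', w = H b f :: w'

theorem hdEnd_word (cs : List Cell) : HdEnd (word cs) := by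
  cases cs with
  | nil => left; rfl
  | cons c cs => right; exact ⟨_, _, _, rfl⟩

theorem A_rx_end (Z : Γ) (γ : List Γ) (w : List Letter) (hw : HdEnd w) :
    A rx (Z :: γ) w ↔ Z = none := by
  rw [A_iff]
  rcases hw with rfl | ⟨b, f, w', rfl⟩ <;>
  simp only [tr, List.head?_cons, List.tail_cons, List.head?_nil] <;> split_ifs with h <;> simp [h]

theorem A_r_end (Z : Γ) (γ : List Γ) (w : List Letter) (hw : HdEnd w) :
    A r (Z :: γ) w ↔ Z = none := by
  rw [A_iff]
  rcases hw with rfl | ⟨b, f, w', rfl⟩ <;>
  simp only [tr, List.head?_cons, List.tail_cons, List.head?_nil] <;> split_ifs with h <;> simp [h]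

theorem A_rx_xs (xs : List Bool) (w : List Letter) (hw : HdEnd w) : ∀ (zs : List Bool),
    A rx (zs.map some ++ [none]) (xs.map X ++ w) ↔ zs = xs := by
  induction xs with
  | nil =>
    intro zs
    cases zs with
    | nil => simp [A_rx_end _ _ _ hw]
    | cons z zs =>
      rw [List.map_cons, List.cons_append, List.map_nil, List.nil_append, A_rx_end _ _ _ hw]
      simp
  | cons x xs ih =>
    intro zs
    cases zs with
    | nil =>
      rw [List.map_nil, List.nil_append, List.map_cons, List.cons_append, A_rx_X]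
      simp
    | cons z zs =>
      rw [List.map_cons, List.cons_append, List.map_cons, List.cons_append, A_rx_X, ih]
      simp

theorem A_r_xs (xs : List Bool) (w : List Letter) (hw : HdEnd w) (zs : List Bool) :
    A r (zs.map some ++ [none]) (xs.map X ++ w) ↔ zs = xs := by
  cases xs with
  | nil =>
    cases zs with
    | nil => simp [A_r_end _ _ _ hw]
    | cons z zs =>
      rw [List.map_cons, List.cons_append, List.map_nil, List.nil_append, A_r_end _ _ _ hw]
      simp
  | cons x xs =>
    cases zs with
    | nil =>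
      rw [List.map_nil, List.nil_append, List.map_cons, List.cons_append, A_r_X]
      simp
    | cons z zs =>
      rw [List.map_cons, List.cons_append, List.map_cons, List.cons_append, A_r_X,
        A_rx_xs _ _ hw]
      simp

theorem A_R (ys xs : List Bool) (w : List Letter) (hw : HdEnd w) :
    A r [none] (ys.map Y ++ (xs.map X ++ w)) ↔ xs = ys.reverse := by
  rw [A_r_ys, A_r_xs _ _ hw, eq_comm]

/-! ### thread I -/

/-- binary addition of a carry, least significant bit first -/
def addc : Bool → List Bool → List Bool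
  | _, [] => []
  | c, y :: ys => xor y c :: addc (y && c) ys

/-- words which are empty or start with `X` or a header -/
def NoY (w : List Letter) : Prop := HdEnd w ∨ ∃ v w', w = X v :: w'

theorem noY_xs (xs : List Bool) (w : List Letter) (hw : HdEnd w) : NoY (xs.map X ++ w) := by
  cases xs with
  | nil => left; simpa using hw
  | cons x xs => right; exact ⟨_, _, rfl⟩

theorem A_ic_end (c : Bool) (Z : Γ) (γ : List Γ) (w : List Letter) (hw : NoY w) :
    A (ic c) (Z :: γ) w ↔ Z = none := by
  rw [A_iff]
  rcases hw with (rfl | ⟨b, f, w', rfl⟩) | ⟨v, w', rfl⟩ <;>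
  simp only [tr, List.head?_cons, List.tail_cons, List.head?_nil] <;> split_ifs with h <;> simp [h]

theorem A_ic_Y (c v : Bool) (Z : Γ) (γ : List Γ) (w : List Letter) :
    A (ic c) (Z :: γ) (Y v :: w) ↔ Z = some (xor v c) ∧ A (ic (xor v c && c)) γ w := by
  rw [A_iff]; simp only [tr, List.head?_cons, List.tail_cons]; split_ifs with h <;> simp [h]

theorem A_ic_ys (ys : List Bool) (w : List Letter) (hw : NoY w) : ∀ (c : Bool) (zs : List Bool),
    A (ic c) (zs.map some ++ [none]) (ys.map Y ++ w) ↔ ys = addc c zs := by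
  induction ys with
  | nil =>
    intro c zs
    cases zs with
    | nil => simp [A_ic_end _ _ _ _ hw, addc]
    | cons z zs =>
      rw [List.map_cons, List.cons_append, List.map_nil, List.nil_append, A_ic_end _ _ _ _ hw]
      simp [addc]
  | cons y ys ih =>
    intro c zs
    cases zs with
    | nil =>
      rw [List.map_nil, List.nil_append, List.map_cons, List.cons_append, A_ic_Y]
      simp [addc]
    | cons z zs =>
      rw [List.map_cons, List.cons_append, List.map_cons, List.cons_append, A_ic_Y, ih]
      cases y <;> cases c <;> cases z <;> simp [addc]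

theorem A_iy_ys (ys : List Bool) (w : List Letter) (Z : Γ) (γ : List Γ) :
    A iy (Z :: γ) (ys.map Y ++ w) ↔ A iy (Z :: γ) w := by
  induction ys with
  | nil => simp
  | cons v ys ih =>
    rw [List.map_cons, List.cons_append, A_iff]; simpa [tr] using ih

theorem A_ix_xs (xs : List Bool) (w : List Letter) : ∀ (Z : Γ) (γ : List Γ),
    A ix (Z :: γ) (xs.map X ++ w) ↔ A ix (xs.reverse.map some ++ Z :: γ) w := by
  induction xs with
  | nil => intro Z γ; simp
  | cons v xs ih =>
    intro Z γ
    rw [List.map_cons, List.cons_append]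
    have : A ix (Z :: γ) (X v :: (xs.map X ++ w)) ↔ A ix (some v :: Z :: γ) (xs.map X ++ w) := by
      rw [A_iff]; simp [tr]
    rw [this, ih]
    simp

theorem A_ix_word_nil (Z : Γ) (γ : List Γ) : A ix (Z :: γ) [] ↔ True := by
  rw [A_iff]; simp [tr]

theorem A_iy_word_nil (Z : Γ) (γ : List Γ) : A iy (Z :: γ) [] ↔ True := by
  rw [A_iff]; simp [tr]

theorem A_ix_H (b f : Bool) (w : List Letter) (Z : Γ) (γ : List Γ) :
    A ix (Z :: γ) (H b f :: w) ↔ A (ic true) (Z :: γ) w := by
  rw [A_iff]; simp [tr]

theorem A_iy_H (b f : Bool) (w : List Letter) (Z : Γ) (γ : List Γ) :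
    A iy (Z :: γ) (H b f :: w) ↔ A (ic true) (Z :: γ) w := by
  rw [A_iff]; simp [tr]

/-- increment check, cell level -/
def ICheck (zs : List Bool) : List Cell → Prop
  | [] => True
  | c :: _ => c.ys = addc true zs

theorem A_iyx_word (st : St) (hst : st = iy ∨ st = ix) (zs : List Bool) (cs : List Cell) :
    A st (zs.map some ++ [none]) (word cs) ↔ ICheck zs cs := by
  have hne : ∃ Z γ, zs.map some ++ [none] = (Z : Γ) :: γ := by
    cases zs <;> exact ⟨_, _, rfl⟩
  obtain ⟨Z, γ, hZ⟩ := hne
  cases cs with
  | nil =>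
    rw [hZ]
    rcases hst with rfl | rfl
    · simp [word, A_iy_word_nil, ICheck]
    · simp [word, A_ix_word_nil, ICheck]
  | cons c cs =>
    have : A st (zs.map some ++ [none]) (word (c :: cs)) ↔
        A (ic true) (zs.map some ++ [none]) (c.ys.map Y ++ (c.xs.map X ++ word cs)) := by
      rw [hZ]
      rcases hst with rfl | rfl
      · simp [word, cellW, A_iy_H]
      · simp [word, cellW, A_ix_H]
    rw [this, A_ic_ys _ _ (noY_xs _ _ (hdEnd_word cs))]
    rfl

theorem A_iy_xs (xs : List Bool) (cs : List Cell) :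
    A iy [none] (xs.map X ++ word cs) ↔ ICheck xs.reverse cs := by
  cases xs with
  | nil => simpa using A_iyx_word iy (Or.inl rfl) [] cs
  | cons x xs =>
    have h1 : A iy [none] ((x :: xs).map X ++ word cs) ↔
        A ix [some x, none] (xs.map X ++ word cs) := by
      rw [List.map_cons, List.cons_append, A_iff]; simp [tr]
    rw [h1, A_ix_xs]
    have := A_iyx_word ix (Or.inr rfl) (x :: xs).reverse cs
    simpa using this

theorem A_I (ys xs : List Bool) (cs : List Cell) :
    A iy [none] (ys.map Y ++ (xs.map X ++ word cs)) ↔ ICheck xs.reverse cs := by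
  rw [A_iy_ys, A_iy_xs]

end Agent.R572.PD.LL
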