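import Pool.Agent.R572.PD.Mach

/-!
# The vertical thread and the scanning thread; cell-level characterisation of the language
-/

namespace Agent.R572.PD.LL

open Letter St

def VC (e : Bool) (zs : List Bool) (c : Cell) : Prop := zs = c.ys → c.b = e

def VN (e : Bool) (zs : List Bool) : List Cell → Prop
  | [] => True
  | c :: cs => c.f = false → VC e zs c ∧ VN e zs cs

def VW (e : Bool) (zs : List Bool) : List Cell → Prop
  | [] => True
  | c :: cs => (c.f = true → VC e zs c ∧ VN e zs cs) ∧ (c.f = false → VW e zs cs)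

theorem A_vc_end (e b : Bool) (Z : Γ) (γ : List Γ) (w : List Letter) (hw : NoY w) :
    A (vc e b) (Z :: γ) w ↔ (Z = none → b = e) := by
  rw [A_iff]
  rcases hw with (rfl | ⟨b', f, w', rfl⟩) | ⟨v, w', rfl⟩ <;>
  simp only [tr, List.head?_cons, List.tail_cons, List.head?_nil] <;> split_ifs with h <;>
  simp <;> tauto

theorem A_vc_Y (e b v : Bool) (Z : Γ) (γ : List Γ) (w : List Letter) :
    A (vc e b) (Z :: γ) (Y v :: w) ↔ (Z = some v → A (vc e b) γ w) := by
  rw [A_iff]; simp only [tr, List.head?_cons, List.tail_cons]; split_ifs with h <;> simp [h]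

theorem A_vc_ys (e b : Bool) (ys : List Bool) (w : List Letter) (hw : NoY w) :
    ∀ (zs : List Bool),
    A (vc e b) (zs.map some ++ [none]) (ys.map Y ++ w) ↔ (zs = ys → b = e) := by
  induction ys with
  | nil =>
    intro zs
    cases zs with
    | nil => simp [A_vc_end _ _ _ _ _ hw]
    | cons z zs =>
      rw [List.map_cons, List.cons_append, List.map_nil, List.nil_append, A_vc_end _ _ _ _ _ hw]
      simp
  | cons y ys ih =>
    intro zs
    cases zs with
    | nil =>
      rw [List.map_nil, List.nil_append, List.map_cons, List.cons_append, A_vc_Y]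
      simp
    | cons z zs =>
      rw [List.map_cons, List.cons_append, List.map_cons, List.cons_append, A_vc_Y, ih]
      simp

theorem stack_cons (zs : List Bool) : ∃ Z γ, zs.map some ++ [none] = (Z : Γ) :: γ := by
  cases zs <;> exact ⟨_, _, rfl⟩

theorem A_vn_skip (e : Bool) (ys xs : List Bool) (w : List Letter) (Z : Γ) (γ : List Γ) :
    A (vn e) (Z :: γ) (ys.map Y ++ (xs.map X ++ w)) ↔ A (vn e) (Z :: γ) w := by
  induction ys with
  | nil =>
    simp only [List.map_nil, List.nil_append]
    induction xs with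
    | nil => simp
    | cons v xs ih =>
      rw [List.map_cons, List.cons_append, A_iff]; simpa [tr] using ih
  | cons v ys ih =>
    rw [List.map_cons, List.cons_append, A_iff]; simpa [tr] using ih

theorem A_vw_skip (e : Bool) (ys xs : List Bool) (w : List Letter) (Z : Γ) (γ : List Γ) :
    A (vw e) (Z :: γ) (ys.map Y ++ (xs.map X ++ w)) ↔ A (vw e) (Z :: γ) w := by
  induction ys with
  | nil =>
    simp only [List.map_nil, List.nil_append]
    induction xs with
    | nil => simp
    | cons v xs ih =>
      rw [List.map_cons, List.cons_append, A_iff]; simpa [tr] using ih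
  | cons v ys ih =>
    rw [List.map_cons, List.cons_append, A_iff]; simpa [tr] using ih

theorem A_vn_word (e : Bool) (zs : List Bool) (cs : List Cell) :
    A (vn e) (zs.map some ++ [none]) (word cs) ↔ VN e zs cs := by
  induction cs with
  | nil =>
    obtain ⟨Z, γ, hZ⟩ := stack_cons zs
    rw [hZ, A_iff]; simp [tr, word, VN]
  | cons c cs ih =>
    obtain ⟨Z, γ, hZ⟩ := stack_cons zs
    have h1 : A (vn e) (Z :: γ) (word (c :: cs)) ↔ (c.f = false →
        A (vn e) (Z :: γ) (c.ys.map Y ++ (c.xs.map X ++ word cs)) ∧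
        A (vc e c.b) (Z :: γ) (c.ys.map Y ++ (c.xs.map X ++ word cs))) := by
      rw [A_iff]
      simp only [word, cellW, List.cons_append, List.append_assoc, List.head?_cons, tr,
        List.tail_cons]
      cases hf : c.f <;> simp
    rw [hZ, h1, A_vn_skip, ← hZ, ih, A_vc_ys _ _ _ _ (noY_xs _ _ (hdEnd_word cs))]
    simp only [VN, VC]
    tauto

/-- the three states in which the vertical thread waits for the next row -/
def isW (e : Bool) (s : St) : Prop := s = vy e ∨ s = vx e ∨ s = vw e

theorem A_w_word (e : Bool) (zs : List Bool) (cs : List Cell) : ∀ (s : St), isW e s →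
    (A s (zs.map some ++ [none]) (word cs) ↔ VW e zs cs) := by
  induction cs with
  | nil =>
    intro s hs
    obtain ⟨Z, γ, hZ⟩ := stack_cons zs
    rw [hZ, A_iff]
    rcases hs with rfl | rfl | rfl <;> simp [tr, word, VW]
  | cons c cs ih =>
    intro s hs
    obtain ⟨Z, γ, hZ⟩ := stack_cons zs
    have h1 : A s (Z :: γ) (word (c :: cs)) ↔
        ((c.f = true →
        A (vn e) (Z :: γ) (c.ys.map Y ++ (c.xs.map X ++ word cs)) ∧
        A (vc e c.b) (Z :: γ) (c.ys.map Y ++ (c.xs.map X ++ word cs))) ∧
        (c.f = false → A (vw e) (Z :: γ) (c.ys.map Y ++ (c.xs.map X ++ word cs)))) := by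
      rw [A_iff]
      simp only [word, cellW, List.cons_append, List.append_assoc, List.head?_cons,
        List.tail_cons]
      rcases hs with rfl | rfl | rfl <;> simp only [tr, hdW] <;> cases hf : c.f <;> simp
    rw [hZ, h1, A_vn_skip, A_vw_skip, ← hZ, ih (vw e) (Or.inr (Or.inr rfl)),
      A_vn_word, A_vc_ys _ _ _ _ (noY_xs _ _ (hdEnd_word cs))]
    simp only [VW, VC]
    tauto

theorem A_vy_ys (e : Bool) (ys : List Bool) (w : List Letter) (Z : Γ) (γ : List Γ) :
    A (vy e) (Z :: γ) (ys.map Y ++ w) ↔ A (vy e) (Z :: γ) w := by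
  induction ys with
  | nil => simp
  | cons v ys ih =>
    rw [List.map_cons, List.cons_append, A_iff]; simpa [tr] using ih

theorem A_vx_xs (e : Bool) (xs : List Bool) (w : List Letter) : ∀ (Z : Γ) (γ : List Γ),
    A (vx e) (Z :: γ) (xs.map X ++ w) ↔ A (vx e) (xs.reverse.map some ++ Z :: γ) w := by
  induction xs with
  | nil => intro Z γ; simp
  | cons v xs ih =>
    intro Z γ
    rw [List.map_cons, List.cons_append]
    have : A (vx e) (Z :: γ) (X v :: (xs.map X ++ w)) ↔
        A (vx e) (some v :: Z :: γ) (xs.map X ++ w) := by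
      rw [A_iff]; simp [tr]
    rw [this, ih]
    simp

theorem A_V (e : Bool) (ys xs : List Bool) (cs : List Cell) :
    A (vy e) [none] (ys.map Y ++ (xs.map X ++ word cs)) ↔ VW e xs.reverse cs := by
  rw [A_vy_ys]
  cases xs with
  | nil => simpa using A_w_word e [] cs (vy e) (Or.inl rfl)
  | cons x xs =>
    have h1 : A (vy e) [none] ((x :: xs).map X ++ word cs) ↔
        A (vx e) [some x, none] (xs.map X ++ word cs) := by
      rw [List.map_cons, List.cons_append, A_iff]; simp [tr]
    rw [h1, A_vx_xs]
    have := A_w_word e (x :: xs).reverse cs (vx e) (Or.inr (Or.inl rfl))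
    simpa using this

/-! ### scanning -/

def allF (l : List Bool) : Bool := l.all (fun x => !x)
def allT (l : List Bool) : Bool := l.all (fun x => x)

def Loc (c : Bool) (cell : Cell) (cs : List Cell) : Prop :=
  cell.xs = cell.ys.reverse ∧ ICheck cell.ys cs ∧ VW (xor cell.b c) cell.ys cs

def Scan : Bool → Bool → Cell → List Cell → Prop
  | c, _, cell, [] => cell.f = allF cell.ys ∧ cell.b = true ∧ c = true ∧ allT cell.ys = true
  | c, g, cell, c2 :: cs => cell.f = allF cell.ys ∧ ((g && !c2.f) = true → c2.b = false) ∧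
      Loc (c2.f || (cell.b && c)) c2 cs ∧
      Scan (c2.f || (cell.b && c)) (g && !c2.f) c2 cs

theorem A_sc_ys (b c g f : Bool) (ys : List Bool) (w : List Letter) : ∀ (z o : Bool) (Z : Γ)
    (γ : List Γ), A (sc false b c g f z o) (Z :: γ) (ys.map Y ++ w) ↔
      A (sc false b c g f (z && allF ys) (o && allT ys)) (Z :: γ) w := by
  induction ys with
  | nil => intro z o Z γ; simp [allF, allT]
  | cons v ys ih =>
    intro z o Z γ
    rw [List.map_cons, List.cons_append, A_iff]
    have := ih (z && !v) (o && v) Z γ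
    simp only [allF, allT, Bool.and_assoc] at this
    simpa [tr, allF, allT] using this

/-- behaviour of the scanning thread at the end of a cell -/
theorem A_sc_word_nil (ph b c g f z o : Bool) :
    A (sc ph b c g f z o) [none] (word []) ↔ f = z ∧ b = true ∧ c = true ∧ o = true := by
  rw [A_iff]; simp only [tr, word, List.head?_nil]; split_ifs with h <;> simp [h]

theorem A_sc_word_cons (ph b c g f z o : Bool) (c2 : Cell) (cs : List Cell) :
    A (sc ph b c g f z o) [none] (word (c2 :: cs)) ↔ f = z ∧
      ((g && !c2.f) = true → c2.b = false) ∧ Loc (c2.f || (b && c)) c2 cs ∧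
      A (sc false c2.b (c2.f || (b && c)) (g && !c2.f) c2.f true true) [none]
        (c2.ys.map Y ++ (c2.xs.map X ++ word cs)) := by
  rw [A_iff]
  simp only [word, cellW, List.cons_append, List.append_assoc, List.head?_cons,
        List.tail_cons, tr]
  split_ifs with h
  · simp only [spawn, reduceCtorEq, ne_eq, not_false_eq_true, List.mem_cons, List.not_mem_nil,
      or_false, forall_eq_or_imp, forall_eq, List.cons_append, List.nil_append, true_and, false_or]
    rw [A_R _ _ _ (hdEnd_word cs), A_I, A_V]
    constructor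
    · rintro ⟨h1, h2, h3, h4⟩
      rw [h2, List.reverse_reverse] at h3 h4
      exact ⟨h.1, h.2, ⟨h2, h3, h4⟩, h1⟩
    · rintro ⟨-, -, ⟨h2, h3, h4⟩, h1⟩
      refine ⟨h1, h2, ?_, ?_⟩
      · rw [h2, List.reverse_reverse]; exact h3
      · rw [h2, List.reverse_reverse]; exact h4
  · simp only [ne_eq, not_true_eq_false, List.not_mem_nil, false_and, or_false]
    constructor
    · exact fun h => h.elim
    · rintro ⟨h1, h2, -⟩
      exact absurd ⟨h1, h2⟩ h

theorem A_sc_xs (b c g f z o : Bool) (xs : List Bool) (w : List Letter) (Z : Γ) (γ : List Γ) :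
    ∀ ph, ∃ ph', (A (sc ph b c g f z o) (Z :: γ) (xs.map X ++ w) ↔
      A (sc ph' b c g f z o) (Z :: γ) w) := by
  induction xs with
  | nil => intro ph; exact ⟨ph, by simp⟩
  | cons v xs ih =>
    intro ph
    obtain ⟨ph', h⟩ := ih true
    refine ⟨ph', ?_⟩
    rw [List.map_cons, List.cons_append, A_iff]
    simpa [tr] using h

theorem A_scan (cs : List Cell) : ∀ (c g : Bool) (cell : Cell),
    A (sc false cell.b c g cell.f true true) [none]
      (cell.ys.map Y ++ (cell.xs.map X ++ word cs)) ↔ Scan c g cell cs := by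
  induction cs with
  | nil =>
    intro c g cell
    rw [A_sc_ys]
    obtain ⟨ph', h⟩ := A_sc_xs cell.b c g cell.f (true && allF cell.ys) (true && allT cell.ys)
      cell.xs (word []) none [] false
    rw [h, A_sc_word_nil]
    simp [Scan]
  | cons c2 cs ih =>
    intro c g cell
    rw [A_sc_ys]
    obtain ⟨ph', h⟩ := A_sc_xs cell.b c g cell.f (true && allF cell.ys) (true && allT cell.ys)
      cell.xs (word (c2 :: cs)) none [] false
    rw [h, A_sc_word_cons, ih]
    simp only [Scan, Bool.true_and]

/-- acceptance of a word given by cells -/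
theorem A_s0 (cell : Cell) (cs : List Cell) :
    A s0 [none] (word (cell :: cs)) ↔ cell.b = false ∧ cell.f = true ∧ Loc true cell cs ∧
      Scan true true cell cs := by
  rw [← A_scan, A_iff]
  simp only [word, cellW, List.cons_append, List.append_assoc, List.head?_cons,
        List.tail_cons, tr]
  split_ifs with h
  · simp only [spawn, reduceCtorEq, ne_eq, not_false_eq_true, List.mem_cons, List.not_mem_nil,
      or_false, forall_eq_or_imp, forall_eq, List.cons_append, List.nil_append, true_and, false_or]
    rw [A_R _ _ _ (hdEnd_word cs), A_I, A_V, h.1, h.2]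
    constructor
    · rintro ⟨h1, h2, h3, h4⟩
      rw [h2, List.reverse_reverse] at h3 h4
      exact ⟨rfl, rfl, ⟨h2, h3, by rw [h.1]; exact h4⟩, h1⟩
    · rintro ⟨-, -, ⟨h2, h3, h4⟩, h1⟩
      rw [h.1] at h4
      refine ⟨h1, h2, ?_, ?_⟩
      · rw [h2, List.reverse_reverse]; exact h3
      · rw [h2, List.reverse_reverse]; exact h4
  · simp only [ne_eq, not_true_eq_false, List.not_mem_nil, false_and, or_false]
    constructor
    · exact fun h => h.elim
    · rintro ⟨h1, h2, -⟩
      exact absurd ⟨h1, h2⟩ h

/-! ### parsing -/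

theorem parse_sc (w : List Letter) : ∀ (ph b c g f z o : Bool) (Z : Γ) (γ : List Γ),
    A (sc ph b c g f z o) (Z :: γ) w →
    ∃ (ys xs : List Bool) (cs : List Cell), w = ys.map Y ++ (xs.map X ++ word cs) ∧ (ph = true → ys = []) := by
  induction w with
  | nil => intro ph b c g f z o Z γ _; exact ⟨[], [], [], rfl, fun _ => rfl⟩
  | cons a w ih =>
    intro ph b c g f z o Z γ h
    rw [A_iff] at h
    rcases h with h | ⟨h1, h2⟩
    · cases h
    · rcases a with ⟨b', f'⟩ | v | v
      · simp only [List.head?_cons, tr] at h1 h2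
        split_ifs at h1 h2 with hc
        · have h3 := h2 _ (by unfold spawn; exact List.mem_cons_self)
          obtain ⟨ys, xs, cs, hw, -⟩ := ih _ _ _ _ _ _ _ _ _ h3
          exact ⟨[], [], ⟨b', f', ys, xs⟩ :: cs, by simp [word, cellW, hw], fun _ => rfl⟩
        · exact absurd rfl h1
      · simp only [List.head?_cons, tr] at h1 h2
        split_ifs at h1 h2 with hc
        · have h3 := h2 _ List.mem_cons_self
          obtain ⟨ys, xs, cs, hw, -⟩ := ih _ _ _ _ _ _ _ _ _ h3
          exact ⟨v :: ys, xs, cs, by simp [hw], fun h => by simp [h] at hc⟩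
        · exact absurd rfl h1
      · simp only [List.head?_cons, tr] at h1 h2
        have h3 := h2 _ List.mem_cons_self
        obtain ⟨ys, xs, cs, hw, hy⟩ := ih _ _ _ _ _ _ _ _ _ h3
        have hy' := hy rfl
        subst hy'
        exact ⟨[], v :: xs, cs, by simp [hw], fun _ => rfl⟩

theorem parse_s0 (w : List Letter) (h : A s0 [none] w) : ∃ cell cs, w = word (cell :: cs) := by
  rw [A_iff] at h
  rcases h with h | ⟨h1, h2⟩
  · cases h
  · rcases w with _ | ⟨⟨b', f'⟩ | v | v, w⟩
    · exact absurd rfl h1
    · simp only [List.head?_cons, tr] at h1 h2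
      split_ifs at h1 h2 with hc
      · have h3 := h2 _ (by unfold spawn; exact List.mem_cons_self)
        obtain ⟨ys, xs, cs, hw, -⟩ := parse_sc _ _ _ _ _ _ _ _ _ _ h3
        simp only [List.tail_cons] at hw
        exact ⟨⟨b', f', ys, xs⟩, cs, by simp [word, cellW, hw]⟩
      · exact absurd rfl h1
    · exact absurd rfl h1
    · exact absurd rfl h1

end Agent.R572.PD.LL
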