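import Pool.Agent.R572.PD.Defs

/-!
# MP_300f36_lc: statements of the independent pieces
-/

namespace Agent.R572.PD

open Relation Asymptotics Filter

variable {A : Type}

/-- Some configuration with state in `F` is reachable from `c`. -/
def CoReach (M : PDA A) (F : Set M.Q) (c : Config M) : Prop :=
  ∃ c', M.Reach c c' ∧ c'.state ∈ F

/-- `AccB M B c`: there is an accepting computation tree with root `c` all of whose nodes have
store height at most `B`. -/
inductive AccB (M : PDA A) (B : ℕ) : Config M → Prop
  | final (c : Config M) : c.stack.length ≤ B → c.state ∈ M.accepting → AccB M B c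
  | exist (c c' : Config M) : c.stack.length ≤ B → c.state ∉ M.universal → M.Step c c' →
      AccB M B c' → AccB M B c
  | univ (c : Config M) : c.stack.length ≤ B → c.state ∈ M.universal → (∃ c', M.Step c c') →
      (∀ c', M.Step c c' → AccB M B c') → AccB M B c

/-- Piece PD1. -/
def StmLinear : Prop :=
  ∀ (A : Type) [Finite A] (M : PDA A) (F : Set M.Q) (s : ℕ → ℝ),
    (∀ w : List A, CoReach M F (M.init w) →
      ∀ c : Config M, M.Reach (M.init w) c → (c.stack.length : ℝ) ≤ s w.length) →
    s =o[atTop] (fun n : ℕ => (n : ℝ)) →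
    ∃ B : ℕ, ∀ (w : List A) (c : Config M), M.Reach (M.init w) c → CoReach M F c →
      c.stack.length ≤ B

/-- Piece PD2. -/
def StmBdd : Prop :=
  ∀ (A : Type) [Finite A] (M : PDA A) (B : ℕ),
    Language.IsRegular ({w | AccB M B (M.init w)} : Language A)

/-- Piece PD3 (may use PD2 as a hypothesis). -/
def StmLogLog : Prop :=
  ∀ (A : Type) [Finite A] (M : PDA A) (s : ℕ → ℝ), M.MiddleBound s →
    s =o[atTop] (fun n : ℕ => Real.log (Real.log (n : ℝ))) → M.language.IsRegular

end Agent.R572.PD
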