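import Pool.Agent.R572.PD.Stm

/-!
# MP_300f36_lc: statements of the remaining pieces
-/

namespace Agent.R572.PD

open Relation Asymptotics Filter

/-- Piece PD4: the linear upper bound. -/
def StmUpperLin : Prop :=
  ∃ M : PDA Bool, M.Nondet ∧ M.Realtime ∧ M.StrongBound (fun n => (n : ℝ) + 1) ∧
    ¬ M.language.IsRegular

/-- Piece PD5 (helper572): the log log n upper bound. -/
def StmUpperLL : Prop :=
  ∃ (A : Type) (_ : Finite A) (M : PDA A), M.Realtime ∧
    M.MiddleBound (fun n => (Nat.log 2 (Nat.log 2 n) : ℝ) + 2) ∧ ¬ M.language.IsRegular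

/-- The full statement. -/
def Main : Prop :=
  (∀ C : Cls, TightBound C .strong (fun n => (n : ℝ))) ∧
  TightBound .oneWayNondet .middle (fun n => (n : ℝ)) ∧
  TightBound .realtimeNondet .middle (fun n => (n : ℝ)) ∧
  TightBound .oneWayAlt .middle (fun n => Real.log (Real.log (n : ℝ))) ∧
  TightBound .realtimeAlt .middle (fun n => Real.log (Real.log (n : ℝ)))

/-- Piece PD6: assembly. -/
def StmAssembly : Prop :=
  StmLinear → StmBdd → StmLogLog → StmUpperLin → StmUpperLL → Main

end Agent.R572.PD
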