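import Pool.Agent.R572.PD.Sound
import Pool.Agent.R572.PD.Stm2

/-!
# The log log n upper bound for realtime alternating pushdown automata in middle mode
-/

namespace Agent.R572.PD.LL

open Letter St Relation

def leadY : List Letter → ℕ
  | Y _ :: w => leadY w + 1
  | _ => 0

def leadX : List Letter → ℕ
  | X _ :: w => leadX w + 1
  | _ => 0

def RunsOK (k : ℕ) : List Letter → Prop
  | [] => True
  | a :: w => leadY (a :: w) ≤ k ∧ leadX (a :: w) ≤ k ∧ RunsOK k w

theorem RunsOK.lead {k : ℕ} {w : List Letter} (h : RunsOK k w) : leadY w ≤ k ∧ leadX w ≤ k := by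
  cases w with
  | nil => simp [leadY, leadX]
  | cons a w => exact ⟨h.1, h.2.1⟩

theorem lead_hdEnd (w : List Letter) (h : HdEnd w) : leadY w = 0 ∧ leadX w = 0 := by
  rcases h with rfl | ⟨b, f, w', rfl⟩ <;> simp [leadY, leadX]

theorem leadX_xs (xs : List Bool) (w : List Letter) (h : HdEnd w) :
    leadX (xs.map X ++ w) = xs.length := by
  induction xs with
  | nil => simp [(lead_hdEnd w h).2]
  | cons x xs ih => simp [leadX, ih]

theorem leadY_xs (xs : List Bool) (w : List Letter) (h : HdEnd w) :
    leadY (xs.map X ++ w) = 0 := by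
  cases xs with
  | nil => simp [(lead_hdEnd w h).1]
  | cons x xs => simp [leadY]

theorem runsOK_xs (k : ℕ) (xs : List Bool) (w : List Letter) (h : HdEnd w) (hw : RunsOK k w)
    (hx : xs.length ≤ k) : RunsOK k (xs.map X ++ w) := by
  induction xs with
  | nil => simpa using hw
  | cons x xs ih =>
    refine ⟨?_, ?_, ih (by simp at hx; omega)⟩
    · simp [leadY]
    · exact (le_of_eq (leadX_xs (x :: xs) w h)).trans hx

theorem leadY_ys (ys : List Bool) (w : List Letter) (h : leadY w = 0) :
    leadY (ys.map Y ++ w) = ys.length := by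
  induction ys with
  | nil => simp [h]
  | cons x xs ih => simp [leadY, ih]

theorem runsOK_ys (k : ℕ) (ys : List Bool) (w : List Letter) (h : leadY w = 0) (hw : RunsOK k w)
    (hx : ys.length ≤ k) : RunsOK k (ys.map Y ++ w) := by
  induction ys with
  | nil => simpa using hw
  | cons x xs ih =>
    refine ⟨?_, ?_, ih (by simp at hx; omega)⟩
    · exact (le_of_eq (leadY_ys (x :: xs) w h)).trans hx
    · simp [leadX]

theorem runsOK_word (k : ℕ) (cs : List Cell) (h : ∀ c ∈ cs, c.ys.length ≤ k ∧ c.xs.length ≤ k) :
    RunsOK k (word cs) := by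
  induction cs with
  | nil => trivial
  | cons c cs ih =>
    have h1 := h c List.mem_cons_self
    have h2 := ih (fun c' hc' => h c' (List.mem_cons_of_mem _ hc'))
    simp only [word, cellW, List.cons_append, List.append_assoc]
    refine ⟨by simp [leadY], by simp [leadX], ?_⟩
    exact runsOK_ys k _ _ (leadY_xs _ _ (hdEnd_word cs))
      (runsOK_xs k _ _ (hdEnd_word cs) h2 h1.2) h1.1

/-- height invariant -/
def hgt (k : ℕ) : St → List Γ → List Letter → Prop
  | r, γ, v => γ.length + leadY v ≤ k + 1
  | ix, γ, v => γ.length + leadX v ≤ k + 1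
  | vx _, γ, v => γ.length + leadX v ≤ k + 1
  | s0, γ, _ => γ.length ≤ 1
  | sc _ _ _ _ _ _ _, γ, _ => γ.length ≤ 1
  | iy, γ, _ => γ.length ≤ 1
  | vy _, γ, _ => γ.length ≤ 1
  | _, γ, _ => γ.length ≤ k + 1

theorem hgt_le (k : ℕ) (s : St) (γ : List Γ) (v : List Letter) (h : hgt k s γ v) :
    γ.length ≤ k + 1 := by
  cases s <;> simp only [hgt] at h <;> omega

theorem hgt_step (k : ℕ) (s : St) (Z : Γ) (γ : List Γ) (w : List Letter) (hw : RunsOK k w)
    (h : hgt k s (Z :: γ) w) : ∀ mv ∈ tr s w.head? Z, hgt k mv.1 (mv.2.1 ++ γ) w.tail := by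
  intro mv hmv
  rcases w with _ | ⟨a, w⟩
  · have h1 := tr_end s Z mv hmv
    have h2 := hgt_le _ _ _ _ h
    simp only [List.length_cons] at h2
    rcases s with _ | ⟨ph, b, c, g, f, z, o⟩ | _ | _ | _ | _ | c | e | e | e | e | ⟨e, b⟩ | _ <;>
    simp only [tr, List.head?_nil] at hmv <;> (try split_ifs at hmv) <;>
    simp at hmv <;> (try subst hmv) <;> simp [hgt] <;> omega
  · have h2 := hgt_le _ _ _ _ h
    simp only [List.length_cons] at h2
    obtain ⟨hw1, hw2, hw3⟩ := hw
    have hw4 := hw3.lead
    rcases s with _ | ⟨ph, b, c, g, f, z, o⟩ | _ | _ | _ | _ | c | e | e | e | e | ⟨e, b⟩ | _ <;>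
    rcases a with ⟨b', f'⟩ | v | v <;>
    simp only [tr, List.head?_cons, spawn, hdW] at hmv <;> (try split_ifs at hmv) <;>
    simp at hmv <;> (try rcases hmv with hmv | hmv | hmv | hmv) <;>
    (try rcases hmv with hmv | hmv) <;> (try subst hmv) <;>
    simp only [hgt, leadY, leadX, List.length_cons, List.length_append, List.length_nil,
      List.nil_append, List.cons_append, List.tail_cons] at h hw1 hw2 ⊢ <;> omega

theorem runsOK_tail {k : ℕ} {w : List Letter} (h : RunsOK k w) : RunsOK k w.tail := by
  cases w with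
  | nil => trivial
  | cons a w => exact h.2.2

theorem reach_hgt (k : ℕ) (w : List Letter) (hw : RunsOK k w) (c : Config M)
    (hc : M.Reach (M.init w) c) : RunsOK k c.rest ∧ hgt k c.state c.stack c.rest := by
  induction hc with
  | refl => exact ⟨hw, by simp [PDA.init, M, hgt]⟩
  | tail _ hstep ih =>
    rename_i c1 c2 _
    obtain ⟨s, γ, v⟩ := c1
    obtain ⟨Z, γ', he, mv, hmv, rfl⟩ := (step_iff s γ v c2).1 hstep
    simp only at ih
    subst he
    exact ⟨runsOK_tail ih.1, hgt_step k s Z γ' v ih.1 ih.2 mv hmv⟩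

theorem mem_language (w : List Letter) : w ∈ M.language ↔ A s0 [none] w := Iff.rfl

/-- analysis of an accepted word -/
theorem accepted (w : List Letter) (h : w ∈ M.language) :
    ∃ k, RunsOK k w ∧ 2 ^ 2 ^ k ≤ w.length := by
  rw [mem_language] at h
  obtain ⟨c0, cs, rfl⟩ := parse_s0 w h
  obtain ⟨cell, hcell⟩ := exists_seg (c0 :: cs)
  rw [List.length_cons] at hcell
  rw [hcell] at h ⊢
  have G := (accept_iff cell cs.length).1 h
  refine ⟨(cell 0).ys.length, ?_, ?_⟩
  · apply runsOK_word
    have hmem : ∀ (m i : ℕ), i + m ≤ cs.length + 1 → ∀ c ∈ seg cell i m,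
        c.ys.length ≤ (cell 0).ys.length ∧ c.xs.length ≤ (cell 0).ys.length := by
      intro m
      induction m with
      | zero => intro i _ c hc; simp [seg] at hc
      | succ m ih =>
        intro i hi c hc
        simp only [seg, List.mem_cons] at hc
        rcases hc with rfl | hc
        · rw [G.x i (by omega), List.length_reverse, G.len i (by omega)]
          exact ⟨le_rfl, le_rfl⟩
        · exact ih (i + 1) (by omega) c hc
    exact hmem (cs.length + 1) 0 (by omega)
  · refine le_trans G.size ?_
    have hlen : ∀ (m i : ℕ), m ≤ (word (seg cell i m)).length := by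
      intro m
      induction m with
      | zero => intro i; simp
      | succ m ih =>
        intro i
        have := ih (i + 1)
        simp only [seg, word, cellW, List.length_append, List.length_cons]
        omega
    exact hlen _ _

theorem middle : M.MiddleBound (fun n => (Nat.log 2 (Nat.log 2 n) : ℝ) + 2) := by
  intro w hw c hc
  obtain ⟨k, hk, hlen⟩ := accepted w hw
  have h1 := hgt_le _ _ _ _ (reach_hgt k w hk c hc).2
  have h2 : 2 ^ k ≤ Nat.log 2 w.length := by
    have h3 := Nat.log_mono_right (b := 2) hlen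
    rwa [Nat.log_pow (by norm_num)] at h3
  have h4 : k ≤ Nat.log 2 (Nat.log 2 w.length) := by
    have h3 := Nat.log_mono_right (b := 2) h2
    rwa [Nat.log_pow (by norm_num)] at h3
  have h5 : c.stack.length ≤ Nat.log 2 (Nat.log 2 w.length) + 2 := by
    have : c.stack.length ≤ k + 1 := h1
    omega
  show (c.stack.length : ℝ) ≤ (Nat.log 2 (Nat.log 2 w.length) : ℝ) + 2
  exact_mod_cast h5

theorem stepN_rest (t : ℕ) : ∀ (c c' : Config M), M.StepN t c c' →
    c'.rest.length = c.rest.length - t := by
  induction t with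
  | zero => intro c c' h; cases h; rfl
  | succ t ih =>
    rintro ⟨s, γ, w⟩ c' ⟨c1, h1, h2⟩
    obtain ⟨Z, γ', he, mv, hmv, rfl⟩ := (step_iff _ _ _ _).1 h1
    have := ih _ _ h2
    simp only [List.length_tail] at this
    rw [this]
    simp only
    omega

theorem realtime : M.Realtime := by
  refine ⟨1, ?_⟩
  intro w c c' t _ hst hrest
  rcases t with _ | _ | t
  · omega
  · omega
  · exfalso
    have h1 := stepN_rest _ _ _ hst
    rw [hrest] at h1
    obtain ⟨s, γ, v⟩ := c
    simp only at h1
    have hv : v = [] := by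
      apply List.eq_nil_of_length_eq_zero; omega
    subst hv
    obtain ⟨c1, h2, c2, h3, -⟩ := hst
    obtain ⟨Z, γ', he, mv, hmv, rfl⟩ := (step_iff _ _ _ _).1 h2
    have h4 := tr_end s Z mv (by simpa using hmv)
    obtain ⟨Z', γ'', he', mv', hmv', -⟩ := (step_iff _ _ _ _).1 h3
    rw [h4] at hmv'
    simp [tr] at hmv'

/-- prefixes -/
def uw (k : ℕ) : List Letter := H false true :: (List.replicate k false).map Y

theorem exists_v (k : ℕ) : ∃ cs : List Cell,
    uw k ++ ((List.replicate k false).map X ++ word cs) ∈ M.language := by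
  obtain ⟨n, hn⟩ := good_ccell k
  have h := (accept_iff (ccell k) n).2 hn
  refine ⟨seg (ccell k) 1 n, ?_⟩
  rw [mem_language]
  have he : word (seg (ccell k) 0 (n + 1)) =
      uw k ++ ((List.replicate k false).map X ++ word (seg (ccell k) 1 n)) := by
    simp only [seg, word, cellW, uw]
    simp [ccell, addr, row]
  rw [← he]
  exact h

theorem uw_inj (k k' : ℕ) (cs : List Cell)
    (h : uw k ++ ((List.replicate k' false).map X ++ word cs) ∈ M.language) : k = k' := by
  rw [mem_language] at h
  have he : uw k ++ ((List.replicate k' false).map X ++ word cs) =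
      word (⟨false, true, List.replicate k false, List.replicate k' false⟩ :: cs) := by
    simp [uw, word, cellW]
  rw [he, A_s0] at h
  have := congrArg List.length h.2.2.1.1
  simpa using this.symm

theorem not_regular : ¬ M.language.IsRegular := by
  intro hreg
  have hfin := Language.IsRegular.finite_range_leftQuotient hreg
  have hinj : Function.Injective (fun k => M.language.leftQuotient (uw k)) := by
    intro k k' h
    obtain ⟨cs, hcs⟩ := exists_v k'
    have h1 : ((List.replicate k' false).map X ++ word cs) ∈ M.language.leftQuotient (uw k') := hcs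
    have h2 : M.language.leftQuotient (uw k) = M.language.leftQuotient (uw k') := h
    rw [← h2] at h1
    exact uw_inj k k' cs h1
  have hinf := Set.infinite_range_of_injective hinj
  apply hinf
  apply hfin.subset
  rintro _ ⟨k, rfl⟩
  exact ⟨uw k, rfl⟩

end Agent.R572.PD.LL

namespace Agent.R572.PD

instance : Finite LL.Letter := inferInstance

theorem stmUpperLL : StmUpperLL :=
  ⟨LL.Letter, inferInstance, LL.M, LL.realtime, LL.middle, LL.not_regular⟩

end Agent.R572.PD
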