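import Pool.Agent.R572.PD.Stm2

/-!
# MP_300f36_lc, piece PD4 (helper574): the linear upper bound
-/

namespace Agent.R572.PD

open Relation Asymptotics Filter

namespace UpperLin

/-- transition table: state `false` is the working state, `true` accepts; store symbol `false` is
the bottom, `true` the counter -/
def dl : Bool → Option Bool → Bool → List (Bool × List Bool × Bool)
  | false, some true, Z => [(false, [true, Z], true)]
  | false, some false, true => [(false, [], true)]
  | false, none, false => [(true, [false], false)]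
  | _, _, _ => []

@[reducible] def M : PDA Bool where
  Q := Bool
  G := Bool
  finQ := inferInstance
  finG := inferInstance
  start := false
  bottom := false
  universal := ∅
  accepting := {true}
  δ := dl

/-- the possible steps -/
theorem step_cases (c c' : Config M) (h : M.Step c c') :
    (∃ Z γ w, c = ⟨false, Z :: γ, true :: w⟩ ∧ c' = ⟨false, true :: Z :: γ, w⟩) ∨
    (∃ γ w, c = ⟨false, true :: γ, false :: w⟩ ∧ c' = ⟨false, γ, w⟩) ∨
    (∃ γ, c = ⟨false, false :: γ, []⟩ ∧ c' = ⟨true, false :: γ, []⟩) := by
  obtain ⟨Z, γ, α, q', m, hs, hm, rfl⟩ := h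
  obtain ⟨st, stk, rest⟩ := c
  simp only at hs hm
  subst hs
  change (q', α, m) ∈ dl st rest.head? Z at hm
  rcases st with _ | _
  · rcases rest with _ | ⟨a, w⟩
    · rcases Z with _ | _
      · simp only [List.head?_nil, dl, List.mem_singleton, Prod.mk.injEq] at hm
        obtain ⟨rfl, rfl, rfl⟩ := hm
        right; right
        exact ⟨γ, rfl, by simp⟩
      · simp [dl] at hm
    · rcases a with _ | _
      · rcases Z with _ | _
        · simp [dl] at hm
        · simp only [List.head?_cons, dl, List.mem_singleton, Prod.mk.injEq] at hm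
          obtain ⟨rfl, rfl, rfl⟩ := hm
          right; left
          exact ⟨γ, w, rfl, by simp⟩
      · simp only [List.head?_cons, dl, List.mem_singleton, Prod.mk.injEq] at hm
        obtain ⟨rfl, rfl, rfl⟩ := hm
        left
        exact ⟨Z, γ, w, rfl, by simp⟩
  · simp [dl] at hm

theorem step_up (Z : Bool) (γ w : List Bool) :
    M.Step ⟨false, Z :: γ, true :: w⟩ ⟨false, true :: Z :: γ, w⟩ :=
  ⟨Z, γ, [true, Z], false, true, rfl, by simp [M, dl], rfl⟩

theorem step_down (γ w : List Bool) :
    M.Step ⟨false, true :: γ, false :: w⟩ ⟨false, γ, w⟩ :=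
  ⟨true, γ, [], false, true, rfl, by simp [M, dl], rfl⟩

theorem step_fin (γ : List Bool) :
    M.Step ⟨false, false :: γ, []⟩ ⟨true, false :: γ, []⟩ :=
  ⟨false, γ, [false], true, false, rfl, by simp [M, dl], rfl⟩

/-- acceptance of a configuration in the working state -/
theorem acc_iff (c : Config M) (hc : c.state = false) :
    M.Acc c ↔ ∃ c', M.Step c c' ∧ M.Acc c' := by
  constructor
  · intro h
    cases h with
    | final _ h => rw [hc] at h; exact absurd h (by simp [M])
    | exist _ c' _ hs ha => exact ⟨c', hs, ha⟩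
    | univ _ hu _ _ => exact absurd hu (by simp [M])
  · rintro ⟨c', hs, ha⟩
    exact PDA.Acc.exist c c' (by simp [M]) hs ha

theorem acc_true (Z : Bool) (γ w : List Bool) :
    M.Acc ⟨false, Z :: γ, true :: w⟩ ↔ M.Acc ⟨false, true :: Z :: γ, w⟩ := by
  rw [acc_iff _ rfl]
  constructor
  · rintro ⟨c', hs, ha⟩
    rcases step_cases _ _ hs with ⟨Z', γ', w', h, rfl⟩ | ⟨γ', w', h, rfl⟩ | ⟨γ', h, rfl⟩
    · simp only [Config.mk.injEq, List.cons.injEq] at h
      obtain ⟨_, ⟨rfl, rfl⟩, _, rfl⟩ := h
      exact ha
    · simp at h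
    · simp at h
  · intro ha
    exact ⟨_, step_up Z γ w, ha⟩

theorem acc_false (γ w : List Bool) :
    M.Acc ⟨false, true :: γ, false :: w⟩ ↔ M.Acc ⟨false, γ, w⟩ := by
  rw [acc_iff _ rfl]
  constructor
  · rintro ⟨c', hs, ha⟩
    rcases step_cases _ _ hs with ⟨Z', γ', w', h, rfl⟩ | ⟨γ', w', h, rfl⟩ | ⟨γ', h, rfl⟩
    · simp at h
    · simp only [Config.mk.injEq, List.cons.injEq] at h
      obtain ⟨_, ⟨_, rfl⟩, _, rfl⟩ := h
      exact ha
    · simp at h
  · intro ha
    exact ⟨_, step_down γ w, ha⟩

theorem not_acc_false (γ w : List Bool) : ¬ M.Acc ⟨false, false :: γ, false :: w⟩ := by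
  rw [acc_iff _ rfl]
  rintro ⟨c', hs, ha⟩
  rcases step_cases _ _ hs with ⟨Z', γ', w', h, rfl⟩ | ⟨γ', w', h, rfl⟩ | ⟨γ', h, rfl⟩
  · simp at h
  · simp at h
  · simp at h

theorem not_acc_nil (γ : List Bool) : ¬ M.Acc ⟨false, true :: γ, []⟩ := by
  rw [acc_iff _ rfl]
  rintro ⟨c', hs, ha⟩
  rcases step_cases _ _ hs with ⟨Z', γ', w', h, rfl⟩ | ⟨γ', w', h, rfl⟩ | ⟨γ', h, rfl⟩
  · simp at h
  · simp at h
  · simp at h

theorem acc_nil (γ : List Bool) : M.Acc ⟨false, false :: γ, []⟩ := by
  rw [acc_iff _ rfl]
  exact ⟨_, step_fin γ, PDA.Acc.final _ (by simp [M])⟩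

/-- pushing -/
theorem acc_push (k j : ℕ) (v : List Bool) :
    M.Acc ⟨false, List.replicate j true ++ [false], List.replicate k true ++ v⟩ ↔
      M.Acc ⟨false, List.replicate (k + j) true ++ [false], v⟩ := by
  induction k generalizing j with
  | zero => simp
  | succ k ih =>
    rw [List.replicate_succ, List.cons_append]
    have e : M.Acc ⟨false, List.replicate j true ++ [false],
        true :: (List.replicate k true ++ v)⟩ ↔
        M.Acc ⟨false, List.replicate (j + 1) true ++ [false], List.replicate k true ++ v⟩ := by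
      rcases j with _ | j
      · exact acc_true false [] _
      · rw [List.replicate_succ (n := j + 1), List.replicate_succ]
        exact acc_true true _ _
    rw [e, ih]
    have : k + (j + 1) = k + 1 + j := by omega
    rw [this]

/-- popping -/
theorem acc_pop (i j : ℕ) :
    M.Acc ⟨false, List.replicate j true ++ [false], List.replicate i false⟩ ↔ i = j := by
  induction i generalizing j with
  | zero =>
    rcases j with _ | j
    · simpa using acc_nil []
    · rw [List.replicate_succ]
      simpa using not_acc_nil _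
  | succ i ih =>
    rcases j with _ | j
    · rw [List.replicate_succ]
      simpa using not_acc_false [] _
    · rw [List.replicate_succ, List.replicate_succ, List.cons_append, acc_false, ih]
      omega

theorem mem_lang (k i : ℕ) :
    (List.replicate k true ++ List.replicate i false) ∈ M.language ↔ i = k := by
  have h := acc_push k 0 (List.replicate i false)
  have h2 := acc_pop i k
  rw [Nat.add_zero] at h
  rw [h2] at h
  exact h

theorem not_regular : ¬ M.language.IsRegular := by
  intro h
  have hf := h.finite_range_leftQuotient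
  have hinj : Function.Injective
      (fun k : ℕ => M.language.leftQuotient (List.replicate k true)) := by
    intro k l hkl
    have h1 : List.replicate k false ∈ M.language.leftQuotient (List.replicate k true) :=
      (mem_lang k k).mpr rfl
    have h2 : List.replicate k false ∈ M.language.leftQuotient (List.replicate l true) := by
      have h3 : M.language.leftQuotient (List.replicate k true) =
        M.language.leftQuotient (List.replicate l true) := hkl
      rw [← h3]
      exact h1
    exact (mem_lang l k).mp h2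
  have h4 : (Set.range (fun k : ℕ => M.language.leftQuotient (List.replicate k true))).Infinite :=
    Set.infinite_range_of_injective hinj
  apply h4
  apply hf.subset
  rintro _ ⟨k, rfl⟩
  exact ⟨_, rfl⟩

theorem reach_bound (w : List Bool) (c : Config M) (h : M.Reach (M.init w) c) :
    c.stack.length + c.rest.length ≤ w.length + 1 := by
  unfold PDA.Reach at h
  induction h with
  | refl => simp [PDA.init]; omega
  | tail _ hs ih =>
    rcases step_cases _ _ hs with ⟨Z', γ', w', rfl, rfl⟩ | ⟨γ', w', rfl, rfl⟩ | ⟨γ', rfl, rfl⟩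
    · simp only [List.length_cons] at ih ⊢; omega
    · simp only [List.length_cons] at ih ⊢; omega
    · simpa using ih

theorem rest_le (t : ℕ) (c c' : Config M) (h : M.StepN t c c') :
    c'.rest.length ≤ c.rest.length := by
  induction t generalizing c with
  | zero => cases h; exact le_rfl
  | succ t ih =>
    obtain ⟨c'', hs, h⟩ := h
    refine (ih c'' h).trans ?_
    rcases step_cases _ _ hs with ⟨Z', γ', w', rfl, rfl⟩ | ⟨γ', w', rfl, rfl⟩ | ⟨γ', rfl, rfl⟩
    · simp
    · simp
    · simp

theorem realtime : M.Realtime := by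
  refine ⟨1, ?_⟩
  intro w c c' t _ ht hrest
  rcases t with _ | t
  · omega
  · obtain ⟨c'', hs, h⟩ := ht
    have h1 := rest_le t c'' c' h
    rw [hrest] at h1
    rcases step_cases _ _ hs with ⟨Z', γ', w', rfl, rfl⟩ | ⟨γ', w', rfl, rfl⟩ | ⟨γ', rfl, rfl⟩
    · simp at h1
    · simp at h1
    · rcases t with _ | t
      · omega
      · exfalso
        obtain ⟨d, hs', _⟩ := h
        rcases step_cases _ _ hs' with ⟨Z', γ', w', h, _⟩ | ⟨γ', w', h, _⟩ | ⟨γ', h, _⟩ <;>
          simp at h

end UpperLin

theorem stmUpperLin : StmUpperLin := by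
  refine ⟨UpperLin.M, rfl, UpperLin.realtime, ?_, UpperLin.not_regular⟩
  intro w c h
  have := UpperLin.reach_bound w c h
  have h2 : c.stack.length ≤ w.length + 1 := by omega
  show (c.stack.length : ℝ) ≤ (w.length : ℝ) + 1
  exact_mod_cast h2

end Agent.R572.PD
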